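import Mathlib

/-!
# Dividing positive integers into groups of the same sum
-/

set_option autoImplicit false

namespace Pool.Agent.WBP

variable {N r d : ℕ}

/-- the load of a bin -/
def load (b : Fin N → ℕ) (f : Fin N → Option (Fin r)) (s : Fin r) : ℕ :=
  ∑ j with f j = some s, b j

lemma load_update (b : Fin N → ℕ) {f : Fin N → Option (Fin r)} {j : Fin N} (hj : f j = none)
    (s s' : Fin r) : load b (Function.update f j (some s)) s' =
      load b f s' + if s' = s then b j else 0 := by
  unfold load
  by_cases h : s' = s
  · subst h
    rw [if_pos rfl]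
    have h1 : (Finset.univ.filter fun i => Function.update f j (some s') i = some s') =
        insert j (Finset.univ.filter fun i => f i = some s') := by
      ext i
      simp only [Finset.mem_filter, Finset.mem_univ, true_and, Finset.mem_insert]
      by_cases hi : i = j
      · subst hi
        simp
      · rw [Function.update_of_ne hi]
        simp [hi]
    rw [h1, Finset.sum_insert (by simp [hj]), add_comm]
  · rw [if_neg h, add_zero]
    apply Finset.sum_congr _ fun _ _ => rfl
    ext i
    simp only [Finset.mem_filter, Finset.mem_univ, true_and]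
    by_cases hi : i = j
    · subst hi
      rw [Function.update_self, hj]
      simp [Ne.symm h]
    · rw [Function.update_of_ne hi]

/-- the sum of the loads -/
lemma sum_load (b : Fin N → ℕ) (f : Fin N → Option (Fin r)) :
    ∑ s, load b f s = ∑ j with f j ≠ none, b j := by
  unfold load
  have h1 : ∀ s : Fin r, ∑ j with f j = some s, b j =
      ∑ j, if f j = some s then b j else 0 := fun s => Finset.sum_filter _ _
  rw [Finset.sum_congr rfl fun s _ => h1 s, Finset.sum_comm, Finset.sum_filter]
  apply Finset.sum_congr rfl
  intro j _
  cases hj : f j with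
  | none => simp
  | some s => simp

/-- a maximal assignment -/
lemma exists_fill (b : Fin N → ℕ) (A : Finset (Fin N)) (f₀ : Fin N → Option (Fin r))
    (hf₀ : ∀ s, load b f₀ s ≤ d) :
    ∃ f : Fin N → Option (Fin r), (∀ s, load b f s ≤ d) ∧ (∀ j, f₀ j ≠ none → f j ≠ none) ∧
      (∀ j, f j ≠ none → f₀ j ≠ none ∨ j ∈ A) ∧ ∀ j ∈ A, f j = none → ∀ s, d < load b f s + b j := by
  classical
  obtain ⟨f, hf, hmax⟩ := Finset.exists_max_image
    (Finset.univ.filter fun f : Fin N → Option (Fin r) => (∀ s, load b f s ≤ d) ∧
      (∀ j, f₀ j ≠ none → f j ≠ none) ∧ (∀ j, f j ≠ none → f₀ j ≠ none ∨ j ∈ A))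
    (fun f => (Finset.univ.filter fun j => f j ≠ none).card)
    ⟨f₀, by
      rw [Finset.mem_filter]
      exact ⟨Finset.mem_univ _, hf₀, fun _ h => h, fun _ h => Or.inl h⟩⟩
  rw [Finset.mem_filter] at hf
  obtain ⟨-, h1, h2, h3⟩ := hf
  refine ⟨f, h1, h2, h3, fun j hjA hj s => ?_⟩
  by_contra hcon
  push Not at hcon
  have h4 := hmax (Function.update f j (some s)) (by
    rw [Finset.mem_filter]
    refine ⟨Finset.mem_univ _, fun s' => ?_, fun i hi => ?_, fun i hi => ?_⟩
    · rw [load_update b hj]
      split_ifs with h
      · rw [h]
        exact hcon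
      · exact h1 s'
    · by_cases hij : i = j
      · subst hij
        simp
      · rw [Function.update_of_ne hij]
        exact h2 i hi
    · by_cases hij : i = j
      · subst hij
        exact Or.inr hjA
      · rw [Function.update_of_ne hij] at hi
        exact h3 i hi)
  have h5 : (Finset.univ.filter fun i => Function.update f j (some s) i ≠ none) =
      insert j (Finset.univ.filter fun i => f i ≠ none) := by
    ext i
    simp only [Finset.mem_filter, Finset.mem_univ, true_and, Finset.mem_insert]
    by_cases hij : i = j
    · subst hij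
      simp
    · rw [Function.update_of_ne hij]
      simp [hij]
  rw [h5, Finset.card_insert_of_notMem (by simp [hj])] at h4
  omega

/-- **Division into groups with sum `d`.** -/
theorem exists_bins (b : Fin N → ℕ) (hb : ∀ j, 0 < b j) (hsum : ∑ j, b j = r * d)
    (hN : r = 1 ∨ r * d + 2 ≤ N + d) : ∃ B : Fin N → Fin r, ∀ s, ∑ j with B j = s, b j = d := by
  classical
  -- the integers which are not one
  obtain ⟨f, hf1, -, hf2, hf3⟩ := exists_fill (r := r) (d := d) b
    (Finset.univ.filter fun j => 1 < b j) (fun _ => none) (by
      intro s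
      simp [load])
  have hf2' : ∀ j, f j ≠ none → 1 < b j := by
    intro j hj
    rcases hf2 j hj with h | h
    · exact absurd rfl h
    · exact (Finset.mem_filter.1 h).2
  have hle : ∀ j₀, f j₀ = none → ∑ s, load b f s + b j₀ ≤ r * d := by
    intro j₀ hj₀
    rw [sum_load, ← hsum, ← Finset.sum_filter_add_sum_filter_not Finset.univ
      (fun j => f j ≠ none) b]
    apply Nat.add_le_add_left
    exact Finset.single_le_sum (f := b) (fun _ _ => Nat.zero_le _) (by simp [hj₀])
  have hall : ∀ j, 1 < b j → f j ≠ none := by
    intro j₀ hj₀ hcon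
    have h1 := hf3 j₀ (by simp [hj₀]) hcon
    have h2 := hle j₀ hcon
    rcases hN with rfl | hN
    · rw [Fin.sum_univ_one] at h2
      have := h1 0
      omega
    · have hr : r ≠ 0 := by
        rintro rfl
        rw [zero_mul] at hsum
        have h3 := Finset.single_le_sum (f := b) (fun _ _ => Nat.zero_le _)
          (Finset.mem_univ j₀)
        omega
      have hr1 : r ≠ 1 := by
        rintro rfl
        rw [Fin.sum_univ_one] at h2
        have := h1 0
        omega
      -- the excess
      have h3 : ∑ j, (b j - 1) + N = r * d := by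
        rw [← hsum]
        have h4 : ∑ j, b j = ∑ j, ((b j - 1) + 1) :=
          Finset.sum_congr rfl fun j _ => (Nat.sub_add_cancel (hb j)).symm
        rw [h4, Finset.sum_add_distrib]
        simp
      have h4 : ∑ s, load b f s + 2 * (b j₀ - 1) ≤ 2 * ∑ j, (b j - 1) := by
        rw [sum_load, ← Finset.sum_filter_add_sum_filter_not Finset.univ
          (fun j => f j ≠ none) (fun j => b j - 1), mul_add]
        apply Nat.add_le_add
        · rw [Finset.mul_sum]
          apply Finset.sum_le_sum
          intro j hj
          have := hf2' j (Finset.mem_filter.1 hj).2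
          omega
        · apply Nat.mul_le_mul_left
          exact Finset.single_le_sum (f := fun j => b j - 1) (fun _ _ => Nat.zero_le _)
            (by simp [hcon])
      have h5 : r * (d + 1) ≤ ∑ s, load b f s + r * b j₀ := by
        have h6 : ∑ s : Fin r, (d + 1) ≤ ∑ s, (load b f s + b j₀) :=
          Finset.sum_le_sum fun s _ => h1 s
        have h7 : ∑ s : Fin r, (load b f s + b j₀) = ∑ s, load b f s + r * b j₀ := by
          rw [Finset.sum_add_distrib]
          simp
        have h8 : ∑ s : Fin r, (d + 1) = r * (d + 1) := by simp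
        rw [h7, h8] at h6
        exact h6
      have h6 : b j₀ - 1 ≤ ∑ j, (b j - 1) :=
        Finset.single_le_sum (f := fun j => b j - 1) (fun _ _ => Nat.zero_le _)
          (Finset.mem_univ j₀)
      have h7 : b j₀ ≤ d + 1 := by omega
      obtain ⟨y, hy⟩ := Nat.exists_eq_add_of_le h7
      have h8 : r * b j₀ + r * y = r * (d + 1) := by rw [← mul_add, ← hy]
      have h9 : 2 * y ≤ r * y := Nat.mul_le_mul_right y (by omega)
      omega
  -- the ones
  obtain ⟨g, hg1, hg2, -, hg3⟩ := exists_fill (r := r) (d := d) b Finset.univ f hf1
  have hgall : ∀ j, g j ≠ none := by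
    intro j₀ hcon
    have hb1 : b j₀ = 1 := by
      by_contra h
      have h2 := hb j₀
      exact hg2 j₀ (hall j₀ (by omega)) hcon
    have h1 := hg3 j₀ (Finset.mem_univ _) hcon
    have h2 : ∑ s, load b g s + b j₀ ≤ r * d := by
      rw [sum_load, ← hsum, ← Finset.sum_filter_add_sum_filter_not Finset.univ
        (fun j => g j ≠ none) b]
      apply Nat.add_le_add_left
      exact Finset.single_le_sum (f := b) (fun _ _ => Nat.zero_le _) (by simp [hcon])
    have h3 : r * d ≤ ∑ s, load b g s := by
      have h4 : ∑ s : Fin r, d ≤ ∑ s, load b g s :=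
        Finset.sum_le_sum fun s _ => by
          have := h1 s
          omega
      simpa using h4
    omega
  have htot : ∑ s, load b g s = ∑ s : Fin r, d := by
    rw [sum_load, Finset.filter_true_of_mem fun j _ => hgall j, hsum]
    simp
  have heq := (Finset.sum_eq_sum_iff_of_le fun s _ => hg1 s).1 htot
  refine ⟨fun j => (g j).get (Option.isSome_iff_ne_none.2 (hgall j)), fun s => ?_⟩
  rw [← heq s (Finset.mem_univ s), load]
  apply Finset.sum_congr _ fun _ _ => rfl
  ext j
  simp only [Finset.mem_filter, Finset.mem_univ, true_and]
  constructor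
  · intro h
    rw [← h, Option.some_get]
  · intro h
    simp [h]

end Pool.Agent.WBP
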