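import Pool.Agent.WBP.Crt

/-!
# One more block
-/

namespace Pool.Agent.WBP

/-- an element killed by `q` is a multiple of `m / q` -/
lemma exists_mul {m q w : ℕ} (hqw : q * w = m) (hm : 0 < m) {a : ZMod m}
    (ha : (q : ZMod m) * a = 0) : ∃ c : ℕ, a = ((w * c : ℕ) : ZMod m) := by
  have : NeZero m := ⟨hm.ne'⟩
  have hq : 0 < q := by
    rcases Nat.eq_zero_or_pos q with h | h
    · rw [h, zero_mul] at hqw
      omega
    · exact h
  have h1 : ((q * a.val : ℕ) : ZMod m) = 0 := by
    push_cast
    rw [ZMod.natCast_zmod_val]
    exact ha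
  rw [ZMod.natCast_eq_zero_iff] at h1
  have h2 : q * w ∣ q * a.val := hqw.dvd.trans h1
  obtain ⟨c, hc⟩ := Nat.dvd_of_mul_dvd_mul_left hq h2
  refine ⟨c, ?_⟩
  rw [← hc, ZMod.natCast_zmod_val]

/-- **One more block.** -/
theorem exists_block {σ : Type} [Fintype σ] [DecidableEq σ] {m : ℕ} (hm : 0 < m) {q w : σ → ℕ}
    (hqw : ∀ x, q x * w x = m) {a : σ → ZMod m} (ha : ∀ x, (q x : ZMod m) * a x = 0)
    (hu : ¬ ∃ t : ℕ, Nat.Coprime t m ∧ ∀ x, a x = ((t * w x : ℕ) : ZMod m)) :
    ∃ T : σ → ℕ, (∃ x, T x ≠ 0) ∧ ∑ x, (T x : ZMod m) * a x = 0 ∧ ∑ x, T x * w x < m := by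
  have : NeZero m := ⟨hm.ne'⟩
  have hq : ∀ x, 0 < q x := by
    intro x
    rcases Nat.eq_zero_or_pos (q x) with h | h
    · have := hqw x
      rw [h, zero_mul] at this
      omega
    · exact h
  choose c hc using fun x => exists_mul (hqw x) hm (ha x)
  by_cases hA : ∀ x, Nat.gcd (c x) (q x) = 1
  swap
  · push Not at hA
    obtain ⟨x, hx⟩ := hA
    set h := Nat.gcd (c x) (q x) with hh
    have hpos : 0 < h := Nat.gcd_pos_of_pos_right _ (hq x)
    obtain ⟨u, hu1⟩ := Nat.gcd_dvd_right (c x) (q x)
    obtain ⟨v, hv1⟩ := Nat.gcd_dvd_left (c x) (q x)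
    rw [← hh] at hu1 hv1
    have hu0 : u ≠ 0 := by
      rintro rfl
      have := hq x
      omega
    refine ⟨Pi.single x u, ⟨x, by simpa using hu0⟩, ?_, ?_⟩
    · rw [Finset.sum_eq_single x]
      · rw [Pi.single_eq_same, hc x, ← Nat.cast_mul]
        rw [ZMod.natCast_eq_zero_iff]
        refine ⟨v, ?_⟩
        have h1 := hqw x
        rw [← h1, hv1]
        calc u * (w x * (h * v)) = (h * u) * w x * v := by ring
          _ = q x * w x * v := by rw [← hu1]
      · intro y _ hy
        rw [Pi.single_eq_of_ne hy]
        simp
      · simp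
    · rw [Finset.sum_eq_single x]
      · rw [Pi.single_eq_same]
        have h1 := hqw x
        have h2 : h * (u * w x) = m := by
          rw [← h1, hu1]
          ring
        have h3 : 2 ≤ h := by omega
        have h4 : 0 < u * w x := by
          rcases Nat.eq_zero_or_pos (u * w x) with h5 | h5
          · rw [h5, mul_zero] at h2
            omega
          · exact h5
        nlinarith
      · intro y _ hy
        rw [Pi.single_eq_of_ne hy, zero_mul]
      · simp
  · by_cases hB : ∀ x y, c x ≡ c y [MOD Nat.gcd (q x) (q y)]
    · exfalso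
      apply hu
      obtain ⟨t, ht⟩ := exists_crt Finset.univ q c fun x _ y _ => hB x y
      have hL : Finset.univ.lcm q ∣ m := by
        apply Finset.lcm_dvd
        intro x _
        exact ⟨w x, (hqw x).symm⟩
      have htL : Nat.Coprime t (Finset.univ.lcm q) := by
        have h1 : ∀ A : Finset σ, Nat.Coprime t (A.lcm q) := by
          intro A
          induction A using Finset.induction_on with
          | empty => simp
          | insert i A hi ih =>
            rw [Finset.lcm_insert]
            refine Nat.Coprime.of_dvd_right (Nat.lcm_dvd_mul _ _) (Nat.Coprime.mul_right ?_ ih)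
            have h2 := ht i (Finset.mem_univ i)
            have h3 := Nat.ModEq.gcd_eq h2
            rw [Nat.coprime_iff_gcd_eq_one, h3]
            exact hA i
        exact h1 _
      obtain ⟨s, hs1, hs2⟩ := exists_coprime_lift hm hL htL
      refine ⟨s, hs1, fun x => ?_⟩
      rw [hc x, ZMod.natCast_eq_natCast_iff]
      have h3 : c x ≡ s [MOD q x] :=
        ((hs2.of_dvd (Finset.dvd_lcm (Finset.mem_univ x))).trans (ht x (Finset.mem_univ x))).symm
      have h4 := h3.mul_left' (w x)
      rw [mul_comm (w x) (q x), hqw x, mul_comm (w x) s] at h4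
      exact h4
    · push Not at hB
      obtain ⟨x, y, hxy⟩ := hB
      set g := Nat.gcd (q x) (q y) with hg
      have hgpos : 0 < g := Nat.gcd_pos_of_pos_left _ (hq x)
      have hne : x ≠ y := by
        rintro rfl
        exact hxy (Nat.ModEq.refl _)
      have hg1 : g ≠ 1 := by
        intro h
        apply hxy
        rw [h]
        exact Nat.modEq_one
      have : NeZero g := ⟨hgpos.ne'⟩
      obtain ⟨u, hu1⟩ := Nat.gcd_dvd_left (q x) (q y)
      obtain ⟨v, hv1⟩ := Nat.gcd_dvd_right (q x) (q y)
      rw [← hg] at hu1 hv1
      have hcop : Nat.Coprime (c y) g := Nat.Coprime.of_dvd_right (Nat.gcd_dvd_right _ _) (hA y)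
      have hy1 : ((c y : ℕ) : ZMod g) * ((c y : ℕ) : ZMod g)⁻¹ = 1 := ZMod.coe_mul_inv_eq_one _ hcop
      set s := (-(c x : ZMod g) * ((c y : ℕ) : ZMod g)⁻¹).val with hs
      have hsg : s < g := ZMod.val_lt _
      have hs0 : ((s : ℕ) : ZMod g) = -(c x : ZMod g) * ((c y : ℕ) : ZMod g)⁻¹ := by
        rw [hs, ZMod.natCast_zmod_val]
      have hs1 : ((c x + s * c y : ℕ) : ZMod g) = 0 := by
        push_cast
        rw [hs0, mul_assoc, mul_comm (_⁻¹), hy1]
        ring
      have hs2 : s + 1 ≠ g := by
        intro h
        apply hxy
        rw [← ZMod.natCast_eq_natCast_iff]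
        have h1 : ((s + 1 : ℕ) : ZMod g) = 0 := by rw [h, ZMod.natCast_self]
        push_cast at h1
        have h2 : ((s : ℕ) : ZMod g) = -1 := eq_neg_of_add_eq_zero_left h1
        push_cast at hs1
        rw [h2] at hs1
        linear_combination hs1
      have hu0 : u ≠ 0 := by
        rintro rfl
        have := hq x
        omega
      refine ⟨Pi.single x u + Pi.single y (s * v), ⟨x, ?_⟩, ?_, ?_⟩
      · rw [Pi.add_apply, Pi.single_eq_same, Pi.single_eq_of_ne hne]
        simpa using hu0
      · have h1 : ∀ z, (((Pi.single x u + Pi.single y (s * v) : σ → ℕ) z : ℕ) : ZMod m) * a z =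
            (if z = x then (u : ZMod m) * a x else 0) +
            (if z = y then ((s * v : ℕ) : ZMod m) * a y else 0) := by
          intro z
          rw [Pi.add_apply, Nat.cast_add, add_mul]
          congr 1
          · by_cases h : z = x
            · subst h
              simp
            · rw [Pi.single_eq_of_ne h, if_neg h]
              simp
          · by_cases h : z = y
            · subst h
              simp
            · rw [Pi.single_eq_of_ne h, if_neg h]
              simp
        rw [Finset.sum_congr rfl fun z _ => h1 z, Finset.sum_add_distrib, Finset.sum_ite_eq',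
          Finset.sum_ite_eq', if_pos (Finset.mem_univ _), if_pos (Finset.mem_univ _), hc x, hc y,
          ← Nat.cast_mul, ← Nat.cast_mul, ← Nat.cast_add, ZMod.natCast_eq_zero_iff]
        rw [ZMod.natCast_eq_zero_iff] at hs1
        obtain ⟨e, he⟩ := hs1
        -- `m = g * n`
        have h2 : g * (u * w x) = m := by
          rw [← hqw x, hu1]
          ring
        have h3 : g * (v * w y) = m := by
          rw [← hqw y, hv1]
          ring
        have h4 : u * w x = v * w y := Nat.eq_of_mul_eq_mul_left hgpos (h2.trans h3.symm)
        refine ⟨e, ?_⟩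
        calc u * (w x * c x) + s * v * (w y * c y) = (u * w x) * c x + (v * w y) * (s * c y) := by
              ring
          _ = (u * w x) * (c x + s * c y) := by rw [← h4]; ring
          _ = (g * (u * w x)) * e := by rw [he]; ring
          _ = m * e := by rw [h2]
      · have h1 : ∀ z, (Pi.single x u + Pi.single y (s * v) : σ → ℕ) z * w z =
            (if z = x then u * w x else 0) + (if z = y then s * v * w y else 0) := by
          intro z
          rw [Pi.add_apply, add_mul]
          congr 1
          · by_cases h : z = x
            · subst h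
              simp
            · rw [Pi.single_eq_of_ne h, if_neg h]
              simp
          · by_cases h : z = y
            · subst h
              simp
            · rw [Pi.single_eq_of_ne h, if_neg h]
              simp
        rw [Finset.sum_congr rfl fun z _ => h1 z, Finset.sum_add_distrib, Finset.sum_ite_eq',
          Finset.sum_ite_eq', if_pos (Finset.mem_univ _), if_pos (Finset.mem_univ _)]
        have h2 : g * (u * w x) = m := by
          rw [← hqw x, hu1]
          ring
        have h3 : g * (v * w y) = m := by
          rw [← hqw y, hv1]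
          ring
        have h4 : u * w x = v * w y := Nat.eq_of_mul_eq_mul_left hgpos (h2.trans h3.symm)
        have h5 : 0 < u * w x := by
          rcases Nat.eq_zero_or_pos (u * w x) with h5 | h5
          · rw [h5, mul_zero] at h2
            omega
          · exact h5
        have h6 : u * w x + s * v * w y = (s + 1) * (u * w x) := by
          rw [mul_assoc s, ← h4]
          ring
        rw [h6, ← h2]
        exact Nat.mul_lt_mul_of_pos_right (by omega) h5

end Pool.Agent.WBP
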