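import Pool.Agent.WBP.Blocks
import Pool.Agent.WBP.Comb

/-!
# Existence of patterns

The exponents `q x` divide `m`, `w x = m / q x`, and the sum of the `w x` over the coordinates of
each factor is at least `m` times the degree. A character `a` (killed by the `q x`) has a pattern
with many blocks, unless there is a unit `t` such that on each factor `a` is `0` or `t * w`.
-/

namespace Pool.Agent.WBP

open Pool.Agent.MPC

variable {r : ℕ} {J : Fin r → Type} [∀ i, Fintype (J i)] [∀ i, DecidableEq (J i)] {m : ℕ}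

theorem exists_pattern_of_ne {q w : (Σ i, J i) → ℕ} (hqw : ∀ x, q x * w x = m) (hm : 0 < m)
    (hw : ∀ x, w x < m) {a : (Σ i, J i) → ZMod m} (ha : ∀ x, (q x : ZMod m) * a x = 0)
    {δ : Fin r → ℕ} (hδ : ∀ i, (∃ j, a ⟨i, j⟩ ≠ 0) → δ i * m ≤ ∑ j, w ⟨i, j⟩)
    (hu : (¬ ∃ t : ℕ, Nat.Coprime t m ∧ ∀ x, a x ≠ 0 → a x = ((t * w x : ℕ) : ZMod m)) ∨
      ∃ i j, a ⟨i, j⟩ ≠ 0 ∧ ((∃ j', a ⟨i, j'⟩ = 0) ∨ δ i * m < ∑ j, w ⟨i, j⟩)) :
    ∃ (Ω 𝔅 : Type) (_ : Fintype Ω) (_ : Fintype 𝔅) (_ : DecidableEq Ω) (_ : DecidableEq 𝔅)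
      (s : Ω → Σ i, J i) (b : Ω → 𝔅) (d : Fin r → ℕ), Pattern a δ s b d := by
  classical
  rcases hu with hu | hu
  · obtain ⟨T, ⟨x, hx⟩, hsum, hlt⟩ := exists_block (σ := {x // a x ≠ 0}) hm
      (q := fun x => q x.1) (w := fun x => w x.1) (fun x => hqw x.1) (a := fun x => a x.1)
      (fun x => ha x.1) (by
        rintro ⟨t, ht, h⟩
        exact hu ⟨t, ht, fun x hx => h ⟨x, hx⟩⟩)
    have key : ∀ {M : Type} [AddCommMonoid M] (F : (Σ i, J i) → ℕ → M) (_ : ∀ x, F x 0 = 0),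
        ∑ x, F x (if h : a x ≠ 0 then T ⟨x, h⟩ else 0) = ∑ x : {x // a x ≠ 0}, F x.1 (T x) := by
      intro M _ F hF
      have h1 : ∑ x, F x (if h : a x ≠ 0 then T ⟨x, h⟩ else 0) =
          ∑ x with a x ≠ 0, F x (if h : a x ≠ 0 then T ⟨x, h⟩ else 0) := by
        symm
        apply Finset.sum_subset (Finset.subset_univ _)
        intro x _ hx
        rw [Finset.mem_filter, not_and, not_not] at hx
        have h1 := hx (Finset.mem_univ x)
        rw [dif_neg (fun h => h h1), hF]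
      rw [h1, Finset.sum_subtype (Finset.univ.filter fun x => a x ≠ 0) (p := fun x => a x ≠ 0)
        (by simp)]
      apply Finset.sum_congr rfl
      rintro ⟨x, hx⟩ _
      rw [dif_pos hx]
    refine exists_pattern hqw hm hw ha hδ (T := fun x => if h : a x ≠ 0 then T ⟨x, h⟩ else 0)
      ⟨x.1, by rw [dif_pos x.2]; exact hx⟩ ?_ ?_ (Or.inl ?_)
    · intro x hx h
      exact hx (dif_neg (fun h' => h' h))
    · rw [key (fun x n => (n : ZMod m) * a x) (fun x => by simp)]
      exact hsum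
    · rw [key (fun x n => n * w x) (fun x => by simp)]
      exact hlt
  · obtain ⟨i, j, hj, hj'⟩ := hu
    have hq0 : q ⟨i, j⟩ ≠ 0 := by
      intro h
      have := hqw ⟨i, j⟩
      rw [h, zero_mul] at this
      omega
    refine exists_pattern hqw hm hw ha hδ (T := Pi.single ⟨i, j⟩ (q ⟨i, j⟩))
      ⟨⟨i, j⟩, by simpa using hq0⟩ ?_ ?_ (Or.inr ⟨?_, i, j, hj, hj'⟩)
    · intro x hx
      by_cases h : x = ⟨i, j⟩
      · rw [h]
        exact hj
      · exact absurd (Pi.single_eq_of_ne h _) hx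
    · rw [Finset.sum_eq_single ⟨i, j⟩]
      · rw [Pi.single_eq_same]
        exact ha _
      · intro y _ hy
        rw [Pi.single_eq_of_ne hy]
        simp
      · simp
    · rw [Finset.sum_eq_single ⟨i, j⟩]
      · rw [Pi.single_eq_same]
        exact (hqw _).le
      · intro y _ hy
        rw [Pi.single_eq_of_ne hy, zero_mul]
      · simp

end Pool.Agent.WBP
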