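import Pool.Agent.MPC.Main
import Pool.Agent.WBP.Pattern
import Pool.Agent.VCI.Defs
import Pool.Agent.DCI57.Op

/-!
# Vanishing for characters of the quotient, for one and for two factors
-/

open Polynomial
open scoped LinearAlgebra.Projectivization

namespace Pool.Agent.WBP

open Pool.Agent.ZCyc

universe u w

variable {k : Type u} [Field k] {J : Type} [Fintype J] [DecidableEq J] {m : ℕ} [NeZero m]

section Forms

/-- the equations of the `s`-fold product -/
noncomputable def forms (s : ℕ) {r : ℕ} (c : Fin r → J → k) (l : Fin s × Fin r) :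
    MvPolynomial (Σ _ : Fin s, J) k :=
  ∑ j, MvPolynomial.C (c l.2 j) * MvPolynomial.X ⟨l.1, j⟩

omit [DecidableEq J] [NeZero m] in
lemma forms_multi (s : ℕ) {r : ℕ} (c : Fin r → J → k) (l : Fin s × Fin r) :
    MPC.IsMultihomogeneous (J := fun _ : Fin s => J) (forms s c l)
      (fun i => if i = l.1 then 1 else 0) := by
  classical
  intro n hn i
  have h1 : ∃ j, n = Finsupp.single ⟨l.1, j⟩ 1 := by
    by_contra hcon
    push Not at hcon
    apply hn
    rw [forms, MvPolynomial.coeff_sum]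
    apply Finset.sum_eq_zero
    intro j _
    rw [MvPolynomial.coeff_C_mul, MvPolynomial.coeff_X, if_neg (Ne.symm (hcon j)), mul_zero]
  obtain ⟨j, rfl⟩ := h1
  change ∑ j', (Finsupp.single (⟨l.1, j⟩ : Σ _ : Fin s, J) 1) ⟨i, j'⟩ = if i = l.1 then 1 else 0
  by_cases hi : i = l.1
  · subst hi
    rw [if_pos rfl, Finset.sum_eq_single j]
    · simp
    · intro j' _ hj'
      rw [Finsupp.single_eq_of_ne]
      intro h
      exact hj' (eq_of_heq (Sigma.mk.inj h).2)
    · simp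
  · rw [if_neg hi]
    apply Finset.sum_eq_zero
    intro j' _
    rw [Finsupp.single_eq_of_ne]
    intro h
    exact hi (Sigma.mk.inj h).1

omit [DecidableEq J] [NeZero m] in
lemma mem_zeros (s : ℕ) {r : ℕ} (c : Fin r → J → k) (p : ∀ _ : Fin s, ℙ k (J → k)) :
    p ∈ MPC.Zeros (J := fun _ : Fin s => J) m (forms s c) ↔ ∀ i, p i ∈ DCI57.Diag m c := by
  have h1 : ∀ l : Fin s × Fin r, MvPolynomial.eval (fun a : (Σ _ : Fin s, J) =>
      (p a.1).rep a.2 ^ m) (forms s c l) = ∑ j, c l.2 j * (p l.1).rep j ^ m := by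
    intro l
    rw [forms, map_sum]
    apply Finset.sum_congr rfl
    intro j _
    rw [map_mul, MvPolynomial.eval_C, MvPolynomial.eval_X]
  constructor
  · intro h i l
    rw [← h1 ⟨i, l⟩]
    exact h ⟨i, l⟩
  · intro h l
    have h2 := h l.1 l.2
    change MvPolynomial.eval (fun a : (Σ _ : Fin s, J) => (p a.1).rep a.2 ^ m) (forms s c l) = 0
    rw [h1]
    exact h2

end Forms

variable {R : Type w} [Field R] [CharZero R]

/-- **Vanishing on the `s`-fold product.** -/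
theorem vanish_prod [IsAlgClosed k] [CharZero k] {ζ : kˣ} (hζ : IsPrimitiveRoot (ζ : k) m)
    {s r : ℕ} (c : Fin r → J → k) {q w : J → ℕ} (hqw : ∀ j, q j * w j = m) (hw : ∀ j, w j < m)
    (hr : r * m ≤ ∑ j, w j) {ω : R} (hω : IsPrimitiveRoot ω m) {a : (Σ _ : Fin s, J) → ZMod m}
    {ψ : AddChar ((Σ _ : Fin s, J) → ZMod m) R} (hψ : ∀ t, ψ t = ω ^ (∑ x, a x * t x).val)
    (ha : ∀ x, (q x.2 : ZMod m) * a x = 0) (hsum : ∀ i, ∑ j, a ⟨i, j⟩ = 0)
    (hu : (¬ ∃ t : ℕ, Nat.Coprime t m ∧ ∀ x, a x ≠ 0 → a x = ((t * w x.2 : ℕ) : ZMod m)) ∨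
      ∃ i j j', a ⟨i, j⟩ ≠ 0 ∧ a ⟨i, j'⟩ = 0)
    {p : ∀ _ : Fin s, ℙ k (J → k)} (hp : ∀ i, p i ∈ DCI57.Diag m c) :
    MPC.op (J := fun _ : Fin s => J) ζ ψ (Finsupp.single p 1) ∈
      MPC.ratEquiv R (MPC.Zeros (J := fun _ : Fin s => J) m (forms s c)) := by
  obtain ⟨Ω, 𝔅, _, _, _, _, t, b, d, h⟩ := exists_pattern_of_ne (J := fun _ : Fin s => J)
    (q := fun x => q x.2) (w := fun x => w x.2) (fun x => hqw x.2) (NeZero.pos m)
    (fun x => hw x.2) ha (δ := fun _ => r) (fun _ _ => hr)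
    (hu.imp_right fun ⟨i, j, j', hj, hj'⟩ => ⟨i, j, hj, Or.inl ⟨j', hj'⟩⟩)
  have hδ : (fun i : Fin s => ∑ l : Fin s × Fin r, (if i = l.1 then 1 else 0)) = fun _ => r := by
    funext i
    rw [Fintype.sum_prod_type, Finset.sum_eq_single i]
    · simp
    · intro i' _ hi'
      apply Finset.sum_eq_zero
      intro l _
      rw [if_neg (Ne.symm hi')]
    · simp
  refine MPC.vanish hζ (fun l => forms_multi s c l) hω hψ hsum ((mem_zeros s c p).2 hp) _ Ω 𝔅 t b d
    ?_ rfl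
  rw [hδ]
  exact h

/-! ### One factor -/

omit [DecidableEq J] [NeZero m] [CharZero R] in
lemma map_one {r : ℕ} (c : Fin r → J → k) {z : (∀ _ : Fin 1, ℙ k (J → k)) →₀ R}
    (hz : z ∈ MPC.ratEquiv R (MPC.Zeros (J := fun _ : Fin 1 => J) m (forms 1 c))) :
    Finsupp.lmapDomain R R (fun p : ∀ _ : Fin 1, ℙ k (J → k) => p 0) z ∈
      DCI57.ratEquiv R (DCI57.Diag m c) := by
  have hle : MPC.ratEquiv R (MPC.Zeros (J := fun _ : Fin 1 => J) m (forms 1 c)) ≤
      (DCI57.ratEquiv R (DCI57.Diag m c)).comap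
        (Finsupp.lmapDomain R R (fun p : ∀ _ : Fin 1, ℙ k (J → k) => p 0)) := by
    conv_lhs => rw [MPC.ratEquiv]
    rw [Submodule.span_le]
    rintro _ ⟨F, _, _, _, _, _, _, x, φ, h1, h2, a, b, v, w, hv, hw, rfl⟩
    rw [SetLike.mem_coe, Submodule.mem_comap, map_sum]
    have h3 : ∀ τ : F ≃ₐ[RatFunc k] F,
        Finsupp.lmapDomain R R (fun p : ∀ _ : Fin 1, ℙ k (J → k) => p 0)
          (Finsupp.single (φ (v.map (τ.restrictScalars k))) 1 -
          Finsupp.single (φ (w.map (τ.restrictScalars k))) 1) =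
        Finsupp.single (φ (v.map (τ.restrictScalars k)) 0) 1 -
          Finsupp.single (φ (w.map (τ.restrictScalars k)) 0) 1 := by
      intro τ
      rw [map_sub, Finsupp.lmapDomain_apply, Finsupp.lmapDomain_apply, Finsupp.mapDomain_single,
        Finsupp.mapDomain_single]
    rw [Finset.sum_congr rfl fun τ _ => h3 τ]
    exact DCI57.gen_mem (x := x 0) (φ := fun v => φ v 0) (fun v => h1 v 0)
      (fun v => (mem_zeros 1 c _).1 (h2 v) 0) hv hw
  exact hle hz

omit [CharZero R] in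
lemma map_op_one (ζ : kˣ) (ψ : AddChar ((Σ _ : Fin 1, J) → ZMod m) R)
    (ψ' : AddChar (J → ZMod m) R) (hψ : ∀ t : (Σ _ : Fin 1, J) → ZMod m,
      ψ t = ψ' fun j => t ⟨0, j⟩) (p : ∀ _ : Fin 1, ℙ k (J → k)) :
    Finsupp.lmapDomain R R (fun p : ∀ _ : Fin 1, ℙ k (J → k) => p 0)
      (MPC.op (J := fun _ : Fin 1 => J) ζ ψ (Finsupp.single p 1)) =
      DCI57.op ζ ψ' (Finsupp.single (p 0) 1) := by
  rw [MPC.op_single, DCI57.op_single, map_sum]
  let e : ((Σ _ : Fin 1, J) → ZMod m) ≃ (J → ZMod m) :=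
    { toFun := fun t j => t ⟨0, j⟩
      invFun := fun t x => t x.2
      left_inv := by
        intro t
        funext x
        obtain ⟨i, j⟩ := x
        rw [Subsingleton.elim i 0]
      right_inv := fun t => rfl }
  rw [← Equiv.sum_comp e]
  apply Finset.sum_congr rfl
  intro g _
  rw [Finsupp.lmapDomain_apply, Finsupp.mapDomain_single, hψ]
  rfl

/-- **Vanishing for one factor.** -/
theorem vanish_one [IsAlgClosed k] [CharZero k] {ζ : kˣ} (hζ : IsPrimitiveRoot (ζ : k) m)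
    {r : ℕ} (c : Fin r → J → k) {q w : J → ℕ} (hqw : ∀ j, q j * w j = m) (hw : ∀ j, w j < m)
    (hr : r * m ≤ ∑ j, w j) {ω : R} (hω : IsPrimitiveRoot ω m) {a : J → ZMod m}
    {ψ : AddChar (J → ZMod m) R} (hψ : ∀ t, ψ t = ω ^ (∑ j, a j * t j).val)
    (ha : ∀ j, (q j : ZMod m) * a j = 0) (h0 : a ≠ 0) (hsum : ∑ j, a j = 0)
    (hu : ¬ ∃ t : ℕ, Nat.Coprime t m ∧ ∀ j, a j = ((t * w j : ℕ) : ZMod m))
    {p : ℙ k (J → k)} (hp : p ∈ DCI57.Diag m c) :
    DCI57.op ζ ψ (Finsupp.single p 1) ∈ DCI57.ratEquiv R (DCI57.Diag m c) := by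
  let ψ' : AddChar ((Σ _ : Fin 1, J) → ZMod m) R :=
    { toFun := fun t => ψ fun j => t ⟨0, j⟩
      map_zero_eq_one' := by
        change ψ (fun _ => 0) = 1
        exact ψ.map_zero_eq_one
      map_add_eq_mul' := by
        intro x y
        change ψ (fun j => x ⟨0, j⟩ + y ⟨0, j⟩) = _
        exact ψ.map_add_eq_mul (fun j => x ⟨0, j⟩) (fun j => y ⟨0, j⟩) }
  have h1 := vanish_prod (R := R) hζ (s := 1) c hqw hw hr hω (a := fun x => a x.2) (ψ := ψ') (by
      intro t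
      change ψ (fun j => t ⟨0, j⟩) = _
      rw [hψ]
      congr 2
      rw [Fintype.sum_sigma]
      simp) (fun x => ha x.2) (fun _ => hsum) (by
      by_cases hz : ∃ j, a j = 0
      · right
        obtain ⟨j, hj⟩ := Function.ne_iff.1 h0
        obtain ⟨j', hj'⟩ := hz
        exact ⟨0, j, j', hj, hj'⟩
      · left
        push Not at hz
        rintro ⟨t, ht, h⟩
        exact hu ⟨t, ht, fun j => h ⟨0, j⟩ (hz j)⟩) (p := fun _ => p) (fun _ => hp)
  have h2 := map_one c h1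
  rw [map_op_one ζ ψ' ψ (fun t => rfl)] at h2
  exact h2

/-! ### Two factors -/

omit [DecidableEq J] [NeZero m] [CharZero R] in
lemma map_two {r : ℕ} (c : Fin r → J → k) {z : (∀ _ : Fin 2, ℙ k (J → k)) →₀ R}
    (hz : z ∈ MPC.ratEquiv R (MPC.Zeros (J := fun _ : Fin 2 => J) m (forms 2 c))) :
    Finsupp.lmapDomain R R (fun p : ∀ _ : Fin 2, ℙ k (J → k) => (p 0, p 1)) z ∈
      VCI.ratEquiv2 R (DCI57.Diag m c) := by
  have hle : MPC.ratEquiv R (MPC.Zeros (J := fun _ : Fin 2 => J) m (forms 2 c)) ≤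
      (VCI.ratEquiv2 R (DCI57.Diag m c)).comap
        (Finsupp.lmapDomain R R (fun p : ∀ _ : Fin 2, ℙ k (J → k) => (p 0, p 1))) := by
    conv_lhs => rw [MPC.ratEquiv]
    rw [Submodule.span_le]
    rintro _ ⟨F, _, _, _, _, _, _, x, φ, h1, h2, a, b, v, w, hv, hw, rfl⟩
    rw [SetLike.mem_coe, Submodule.mem_comap, map_sum]
    have h3 : ∀ τ : F ≃ₐ[RatFunc k] F,
        Finsupp.lmapDomain R R (fun p : ∀ _ : Fin 2, ℙ k (J → k) => (p 0, p 1))
          (Finsupp.single (φ (v.map (τ.restrictScalars k))) 1 -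
          Finsupp.single (φ (w.map (τ.restrictScalars k))) 1) =
        Finsupp.single (φ (v.map (τ.restrictScalars k)) 0,
          φ (v.map (τ.restrictScalars k)) 1) 1 -
          Finsupp.single (φ (w.map (τ.restrictScalars k)) 0,
          φ (w.map (τ.restrictScalars k)) 1) 1 := by
      intro τ
      rw [map_sub, Finsupp.lmapDomain_apply, Finsupp.lmapDomain_apply, Finsupp.mapDomain_single,
        Finsupp.mapDomain_single]
    rw [Finset.sum_congr rfl fun τ _ => h3 τ]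
    exact Submodule.subset_span ⟨F, _, _, _, inferInstance, inferInstance, inferInstance, x 0, x 1,
      fun v => φ v 0, fun v => φ v 1, fun v => h1 v 0, fun v => h1 v 1,
      fun v => (mem_zeros 2 c _).1 (h2 v) 0, fun v => (mem_zeros 2 c _).1 (h2 v) 1, a, b, v, w, hv,
      hw, rfl⟩
  exact hle hz

omit [CharZero R] in
lemma map_op_two (ζ : kˣ) (ψ : AddChar ((Σ _ : Fin 2, J) → ZMod m) R)
    (ψ₁ ψ₂ : AddChar (J → ZMod m) R) (hψ : ∀ t : (Σ _ : Fin 2, J) → ZMod m,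
      ψ t = ψ₁ (fun j => t ⟨0, j⟩) * ψ₂ fun j => t ⟨1, j⟩) (p : ∀ _ : Fin 2, ℙ k (J → k)) :
    Finsupp.lmapDomain R R (fun p : ∀ _ : Fin 2, ℙ k (J → k) => (p 0, p 1))
      (MPC.op (J := fun _ : Fin 2 => J) ζ ψ (Finsupp.single p 1)) =
      VCI.op2 ζ ψ₁ ψ₂ (Finsupp.single (p 0, p 1) 1) := by
  rw [MPC.op_single, map_sum, VCI.op2, Finsupp.linearCombination_single, one_smul,
    ← Fintype.sum_prod_type' (f := fun g h => Finsupp.single (DCI57.act ζ g (p 0, p 1).1,
      DCI57.act ζ h (p 0, p 1).2) (ψ₁ g * ψ₂ h))]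
  let e : ((Σ _ : Fin 2, J) → ZMod m) ≃ (J → ZMod m) × (J → ZMod m) :=
    { toFun := fun t => (fun j => t ⟨0, j⟩, fun j => t ⟨1, j⟩)
      invFun := fun t x => if x.1 = 0 then t.1 x.2 else t.2 x.2
      left_inv := by
        intro t
        funext x
        obtain ⟨i, j⟩ := x
        fin_cases i <;> simp
      right_inv := by
        intro t
        simp }
  rw [← Equiv.sum_comp e]
  apply Finset.sum_congr rfl
  intro g _
  rw [Finsupp.lmapDomain_apply, Finsupp.mapDomain_single, hψ]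
  rfl

/-- **Vanishing for two factors.** -/
theorem vanish_two [IsAlgClosed k] [CharZero k] {ζ : kˣ} (hζ : IsPrimitiveRoot (ζ : k) m)
    {r : ℕ} (c : Fin r → J → k) {q w : J → ℕ} (hqw : ∀ j, q j * w j = m) (hw : ∀ j, w j < m)
    (hr : r * m ≤ ∑ j, w j) {ω : R} (hω : IsPrimitiveRoot ω m) {a a' : J → ZMod m}
    {ψ ψ' : AddChar (J → ZMod m) R} (hψ : ∀ t, ψ t = ω ^ (∑ j, a j * t j).val)
    (hψ' : ∀ t, ψ' t = ω ^ (∑ j, a' j * t j).val)
    (ha : ∀ j, (q j : ZMod m) * a j = 0) (ha' : ∀ j, (q j : ZMod m) * a' j = 0)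
    (h0 : ∀ j, a j ≠ 0) (h0' : ∀ j, a' j ≠ 0) (hsum : ∑ j, a j = 0) (hsum' : ∑ j, a' j = 0)
    (hne : a ≠ a') {p p' : ℙ k (J → k)} (hp : p ∈ DCI57.Diag m c) (hp' : p' ∈ DCI57.Diag m c) :
    VCI.op2 ζ ψ ψ' (Finsupp.single (p, p') 1) ∈ VCI.ratEquiv2 R (DCI57.Diag m c) := by
  let χ : AddChar ((Σ _ : Fin 2, J) → ZMod m) R :=
    { toFun := fun t => ψ (fun j => t ⟨0, j⟩) * ψ' fun j => t ⟨1, j⟩
      map_zero_eq_one' := by
        change ψ (fun _ => 0) * ψ' (fun _ => 0) = 1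
        have h1 : ψ (fun _ => 0) = 1 := ψ.map_zero_eq_one
        have h2 : ψ' (fun _ => 0) = 1 := ψ'.map_zero_eq_one
        rw [h1, h2, mul_one]
      map_add_eq_mul' := by
        intro x y
        change ψ (fun j => x ⟨0, j⟩ + y ⟨0, j⟩) * ψ' (fun j => x ⟨1, j⟩ + y ⟨1, j⟩) = _
        have h1 : ψ (fun j => x ⟨0, j⟩ + y ⟨0, j⟩) = _ :=
          ψ.map_add_eq_mul (fun j => x ⟨0, j⟩) (fun j => y ⟨0, j⟩)
        have h2 : ψ' (fun j => x ⟨1, j⟩ + y ⟨1, j⟩) = _ :=
          ψ'.map_add_eq_mul (fun j => x ⟨1, j⟩) (fun j => y ⟨1, j⟩)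
        rw [h1, h2]
        ring }
  have hpow : ∀ x y : ZMod m, ω ^ (x + y).val = ω ^ x.val * ω ^ y.val := by
    intro x y
    rw [ZMod.val_add, ← pow_add]
    conv_rhs => rw [← Nat.mod_add_div (x.val + y.val) m, pow_add, pow_mul, hω.pow_eq_one, one_pow,
      mul_one]
  have h1 := vanish_prod (R := R) hζ (s := 2) c hqw hw hr hω
    (a := fun x => if x.1 = 0 then a x.2 else a' x.2) (ψ := χ) (by
      intro t
      change ψ (fun j => t ⟨0, j⟩) * ψ' (fun j => t ⟨1, j⟩) = _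
      rw [hψ, hψ', ← hpow]
      congr 2
      rw [Fintype.sum_sigma, Fin.sum_univ_two]
      simp) (by
      rintro ⟨i, j⟩
      by_cases hi : i = 0
      · simpa [hi] using ha j
      · simpa [hi] using ha' j) (by
      intro i
      by_cases hi : i = 0
      · simpa [hi] using hsum
      · simpa [hi] using hsum') (by
      left
      rintro ⟨t, ht, h⟩
      apply hne
      funext j
      have h2 := h ⟨0, j⟩ (by simpa using h0 j)
      have h3 := h ⟨1, j⟩ (by simpa using h0' j)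
      simp only [if_true] at h2
      simp only [one_ne_zero, if_false] at h3
      rw [h2, h3]) (p := fun i => if i = 0 then p else p') (by
      intro i
      by_cases hi : i = 0
      · simpa [hi] using hp
      · simpa [hi] using hp')
  have h2 := map_two c h1
  rw [map_op_two ζ χ ψ ψ' (fun t => rfl)] at h2
  simpa using h2

end Pool.Agent.WBP
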