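import Pool.Agent.GBB.Defs2
import Pool.Agent.WBP.Bridge

/-!
# Vanishing for characters, for any number of factors
-/

set_option autoImplicit false

noncomputable section

namespace Pool.Agent.WBP

open Pool.Agent.ZCyc Pool.Agent.DCI57 Pool.Agent.GBB
open scoped LinearAlgebra.Projectivization

variable {d N : ℕ}

/-- rational equivalence on the product -/
lemma rat_le {k r : ℕ} (c : Fin r → Fin N → ℂ) :
    MPC.ratEquiv ℂ (MPC.Zeros (J := fun _ : Fin k => Fin N) d (forms k c)) ≤
      ratEq ℂ (Diag d c) k := by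
  conv_lhs => rw [MPC.ratEquiv]
  rw [Submodule.span_le]
  rintro _ ⟨F, _, _, _, _, _, _, x, φ, h1, h2, a, b, v, w, hv, hw, rfl⟩
  exact Submodule.subset_span ⟨F, _, _, _, inferInstance, inferInstance, inferInstance, x, φ,
    fun v i => h1 v i, fun v i => (mem_zeros k c _).1 (h2 v) i, a, b, v, w, hv, hw, rfl⟩

/-- **A character with a pattern does not occur.** -/
theorem E_zero_of_pattern [NeZero d] {k r : ℕ} (c : Fin r → Fin N → ℂ)
    (a : Fin k → Fin N → ZMod d) (hsum : ∀ i, ∑ j, a i j = 0)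
    (h : ∃ (Ω 𝔅 : Type) (_ : Fintype Ω) (_ : Fintype 𝔅) (_ : DecidableEq Ω) (_ : DecidableEq 𝔅)
      (s : Ω → Σ _ : Fin k, Fin N) (b : Ω → 𝔅) (δ : Fin k → ℕ),
      MPC.Pattern (J := fun _ : Fin k => Fin N) (fun x => a x.1 x.2) (fun _ => r) s b δ)
    (u : Pts k N) (hu : OnX (Diag d c) u) : E (Diag d c) a u = 0 := by
  classical
  obtain ⟨Ω, 𝔅, _, _, _, _, s, b, δ, h⟩ := h
  let ψ : AddChar ((Σ _ : Fin k, Fin N) → ZMod d) ℂ :=
    { toFun := fun t => psi (∑ x, a x.1 x.2 * t x)
      map_zero_eq_one' := by simp [psi_zero]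
      map_add_eq_mul' := by
        intro x y
        rw [← psi_add, ← Finset.sum_add_distrib]
        simp only [Pi.add_apply, mul_add] }
  have hδ : (fun i : Fin k => ∑ l : Fin k × Fin r, (if i = l.1 then 1 else 0)) = fun _ => r := by
    funext i
    rw [Fintype.sum_prod_type, Finset.sum_eq_single i]
    · simp
    · intro i' _ hi'
      apply Finset.sum_eq_zero
      intro l _
      rw [if_neg (Ne.symm hi')]
    · simp
  have h1 := MPC.vanish (R := ℂ) (J := fun _ : Fin k => Fin N) (zeta_prim d)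
    (fun l => forms_multi k c l) (ω := ((zeta d : ℂˣ) : ℂ)) (zeta_prim d)
    (a := fun x => a x.1 x.2) (ψ := ψ) (fun t => rfl) hsum ((mem_zeros k c u).2 hu) _ Ω 𝔅 s b δ
    (by rw [hδ]; exact h) rfl
  have h2 := rat_le c h1
  rw [MPC.op_single] at h2
  have h3 : E (Diag d c) a u = Submodule.Quotient.mk (∑ g : (Σ _ : Fin k, Fin N) → ZMod d,
      Finsupp.single (MPC.act (J := fun _ : Fin k => Fin N) (zeta d) g u) (ψ g)) := by
    rw [← Submodule.mkQ_apply, map_sum, E,
      ← Equiv.sum_comp (Equiv.piCurry (fun (_ : Fin k) (_ : Fin N) => ZMod d))]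
    apply Finset.sum_congr rfl
    intro g _
    have h4 : Finsupp.single (MPC.act (J := fun _ : Fin k => Fin N) (zeta d) g u) (ψ g) =
        ψ g • Finsupp.single (MPC.act (J := fun _ : Fin k => Fin N) (zeta d) g u) (1 : ℂ) := by
      rw [Finsupp.smul_single, smul_eq_mul, mul_one]
    rw [h4, map_smul]
    congr 1
    change psi _ = psi _
    rw [Fintype.sum_sigma]
    rfl
  rw [h3, Submodule.Quotient.mk_eq_zero]
  exact h2

end Pool.Agent.WBP
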