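import Pool.Agent.MPC.Frac3

/-!
# The fractional packing theorem with weights

The same theorem as `Pool.Agent.MPC.frac`, for elements `a j` which are killed by divisors `p j` of
`m`; an element which is not a unit counts with its weight `v j = m / p j`.
-/

open Finset

namespace Pool.Agent.WBP

open Pool.Agent.SavChen Pool.Agent.MPC

variable {m : ℕ} [NeZero m]

/-- **Fractional packings with weights.** -/
theorem fracW {J : Type} [Fintype J] [DecidableEq J] (a : J → ZMod m) (ha : ∀ j, a j ≠ 0)
    (hsum : ∑ j, a j = 0) {p v : J → ℕ} (hpv : ∀ j, p j * v j = m)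
    (hpa : ∀ j, (p j : ZMod m) * a j = 0) (κ : ℕ) (hN : m * κ < ∑ j, max 2 (v j))
    (hq : ∀ u : (ZMod m)ˣ, m * (κ + 1) ≤ ∑ j, ((u : ZMod m) * a j).val) :
    ∃ D, 0 < D ∧ Splits (fun w : J × Fin D => a w.1) Finset.univ (D * κ + 1) := by
  classical
  by_contra hcon
  push Not at hcon
  have hm0 : 0 < m := NeZero.pos m
  have hmR : (0 : ℝ) < m := by exact_mod_cast hm0
  set c : ZMod m → ℕ := fun x => (Finset.univ.filter fun j => a j = x).card with hc
  -- real packings of the sequence
  have h1 : ∀ l : Multiset (ZMod m) → ℝ, (∀ T, 0 ≤ l T) →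
      (∀ x, ∑ T ∈ fam m, l T * T.count x ≤ c x) → ∑ T ∈ fam m, l T ≤ κ := by
    intro l hl0 hl
    by_contra hlt
    push Not at hlt
    obtain ⟨D, hD⟩ := exists_nat_gt (((fam m).card : ℝ) / (∑ T ∈ fam m, l T - κ))
    rw [div_lt_iff₀ (by linarith)] at hD
    have hD0 : 0 < D := by
      rcases Nat.eq_zero_or_pos D with h | h
      · rw [h, Nat.cast_zero, zero_mul] at hD
        have : (0 : ℝ) ≤ ((fam m).card : ℝ) := Nat.cast_nonneg _
        linarith
      · exact h
    apply hcon D hD0
    have hDR : (0 : ℝ) < D := by exact_mod_cast hD0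
    have h2 : D * κ + 1 ≤ ∑ T ∈ fam m, ⌊(D : ℝ) * l T⌋₊ := by
      have h3 : (D : ℝ) * κ < ∑ T ∈ fam m, (⌊(D : ℝ) * l T⌋₊ : ℝ) := by
        have h4 : ∑ T ∈ fam m, ((D : ℝ) * l T - 1) ≤ ∑ T ∈ fam m, (⌊(D : ℝ) * l T⌋₊ : ℝ) :=
          Finset.sum_le_sum fun T _ => (Nat.sub_one_lt_floor _).le
        rw [Finset.sum_sub_distrib, ← Finset.mul_sum] at h4
        simp only [Finset.sum_const, nsmul_eq_mul, mul_one] at h4
        nlinarith
      exact_mod_cast h3
    refine (splits_of_counts (fun w : J × Fin D => a w.1) (fam m) (fun T hT => (mem_fam.1 hT).2)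
      _ Finset.univ (fun T => ⌊(D : ℝ) * l T⌋₊) ?_ ?_ rfl).mono h2
    · rw [Fintype.sum_prod_type]
      simp only [Finset.sum_const, Finset.card_univ, Fintype.card_fin, nsmul_eq_mul]
      rw [← Finset.mul_sum, hsum, mul_zero]
    · intro x
      have h3 : (Finset.univ.filter fun w : J × Fin D => a w.1 = x).card = c x * D := by
        have h4 : (Finset.univ.filter fun w : J × Fin D => a w.1 = x) =
            (Finset.univ.filter fun j => a j = x) ×ˢ (Finset.univ : Finset (Fin D)) := by
          ext w
          simp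
        rw [h4, Finset.card_product, Finset.card_univ, Fintype.card_fin]
      rw [h3]
      have h4 : (∑ T ∈ fam m, (⌊(D : ℝ) * l T⌋₊ : ℝ) * T.count x) ≤ c x * D := by
        have h5 : ∑ T ∈ fam m, (⌊(D : ℝ) * l T⌋₊ : ℝ) * T.count x ≤
            ∑ T ∈ fam m, (D : ℝ) * (l T * T.count x) := by
          apply Finset.sum_le_sum
          intro T _
          rw [← mul_assoc]
          exact mul_le_mul_of_nonneg_right (Nat.floor_le (mul_nonneg hDR.le (hl0 T)))
            (Nat.cast_nonneg _)
        rw [← Finset.mul_sum] at h5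
        have h6 := mul_le_mul_of_nonneg_left (hl x) hDR.le
        linarith
      exact_mod_cast h4
  -- the weights
  set W : ℕ := ∑ j, max 2 (v j) with hWdef
  set g : ℝ := min 1 (W / m - κ) with hg
  have hg0 : 0 < g := by
    apply lt_min one_pos
    rw [sub_pos, lt_div_iff₀ hmR, mul_comm]
    exact_mod_cast hN
  have hκm : (0 : ℝ) < κ + m := by positivity
  set η : ℝ := g / (2 * (κ + m)) with hη
  have hη0 : 0 < η := by positivity
  have hηg : η * (κ + m) = g / 2 := by
    rw [hη]
    field_simp
  set w : ZMod m → ℝ := fun x => c x + η with hw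
  have hw0 : ∀ x, 0 < w x := fun x => by
    have : (0 : ℝ) ≤ c x := Nat.cast_nonneg _
    simp only [hw]
    linarith
  have h2 : ∀ l : Multiset (ZMod m) → ℝ, (∀ T, 0 ≤ l T) →
      (∀ x, ∑ T ∈ fam m, l T * T.count x ≤ w x) → ∑ T ∈ fam m, l T ≤ κ + g / 2 := by
    intro l hl0 hl
    have h3 : ∑ T ∈ (fam m).filter (fun T => ∀ x ∈ T, c x ≠ 0), l T ≤ (1 + η) * κ := by
      have h4 := h1 (fun T => if (∀ x ∈ T, c x ≠ 0) then l T / (1 + η) else 0) (fun T => by
        split_ifs
        · exact div_nonneg (hl0 T) (by linarith)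
        · exact le_rfl) (fun x => by
        by_cases hx : c x = 0
        · rw [Finset.sum_eq_zero, hx, Nat.cast_zero]
          intro T _
          split_ifs with hT
          · have : x ∉ T := fun h => hT x h hx
            rw [Multiset.count_eq_zero_of_notMem this, Nat.cast_zero, mul_zero]
          · rw [zero_mul]
        · have h5 : ∑ T ∈ fam m, (if (∀ x ∈ T, c x ≠ 0) then l T / (1 + η) else 0) *
              (T.count x : ℝ) ≤ ∑ T ∈ fam m, (1 / (1 + η)) * (l T * T.count x) := by
            apply Finset.sum_le_sum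
            intro T _
            split_ifs with hT
            · apply le_of_eq
              ring
            · rw [zero_mul]
              have := hl0 T
              positivity
          rw [← Finset.mul_sum] at h5
          refine h5.trans ?_
          rw [div_mul_eq_mul_div, one_mul, div_le_iff₀ (by linarith)]
          refine (hl x).trans ?_
          have h6 : (1 : ℝ) ≤ c x := by exact_mod_cast Nat.one_le_iff_ne_zero.2 hx
          simp only [hw]
          nlinarith)
      rw [← Finset.sum_filter, ← Finset.sum_div, div_le_iff₀ (by linarith)] at h4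
      linarith
    have h4 : ∑ T ∈ (fam m).filter (fun T => ¬ ∀ x ∈ T, c x ≠ 0), l T ≤ η * m := by
      have h5 : ∑ T ∈ (fam m).filter (fun T => ¬ ∀ x ∈ T, c x ≠ 0), l T ≤
          ∑ T ∈ fam m, ∑ x with c x = 0, l T * T.count x := by
        rw [Finset.sum_filter]
        apply Finset.sum_le_sum
        intro T _
        by_cases hT : ∀ x ∈ T, c x ≠ 0
        · rw [if_neg (not_not.2 hT)]
          exact Finset.sum_nonneg fun x _ => mul_nonneg (hl0 T) (Nat.cast_nonneg _)
        · rw [if_pos hT]
          push Not at hT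
          obtain ⟨x, hx, hcx⟩ := hT
          have h6 : l T * T.count x ≤ ∑ x with c x = 0, l T * T.count x :=
            Finset.single_le_sum (f := fun x => l T * (T.count x : ℝ))
              (fun x _ => mul_nonneg (hl0 T) (Nat.cast_nonneg _)) (by simp [hcx])
          have h7 : (1 : ℝ) ≤ T.count x := by exact_mod_cast Multiset.count_pos.2 hx
          have := hl0 T
          nlinarith
      rw [Finset.sum_comm] at h5
      have h6 : ∑ x with c x = 0, ∑ T ∈ fam m, l T * T.count x ≤ ∑ x with c x = 0, η := by
        apply Finset.sum_le_sum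
        intro x hx
        rw [Finset.mem_filter] at hx
        have := hl x
        simp only [hw, hx.2, Nat.cast_zero, zero_add] at this
        exact this
      have h7 : ∑ x : ZMod m with c x = 0, η ≤ η * m := by
        rw [Finset.sum_const, nsmul_eq_mul, mul_comm]
        apply mul_le_mul_of_nonneg_left _ hη0.le
        have : (Finset.univ.filter fun x : ZMod m => c x = 0).card ≤ m := by
          refine (Finset.card_le_univ _).trans ?_
          rw [ZMod.card]
        exact_mod_cast this
      linarith
    rw [← Finset.sum_filter_add_sum_filter_not (fam m) (fun T => ∀ x ∈ T, c x ≠ 0)]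
    have h5 : (1 + η) * κ + η * m = κ + g / 2 := by rw [← hηg]; ring
    linarith
  obtain ⟨y₀, hy₀, hy₀c⟩ := duality hw0 (by positivity) h2
  obtain ⟨y, hy, hmin⟩ := exists_optimal hw0 hy₀
  have hyc : ∑ x, w x * y x ≤ κ + g / 2 := (hmin y₀ hy₀).trans hy₀c
  -- sums over the sequence
  have hS : ∀ z : ZMod m → ℝ, (∀ x, 0 ≤ z x) → ∑ j, z (a j) ≤ ∑ x, w x * z x := by
    intro z hz
    rw [← Finset.sum_fiberwise Finset.univ a (fun j => z (a j))]
    apply Finset.sum_le_sum
    intro x _
    rw [Finset.sum_congr rfl (g := fun _ => z x) (fun j hj => by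
      rw [(Finset.mem_filter.1 hj).2]), Finset.sum_const, nsmul_eq_mul]
    apply mul_le_mul_of_nonneg_right _ (hz x)
    simp only [hw]
    have : (((Finset.univ.filter fun j => a j = x).card : ℕ) : ℝ) = c x := rfl
    linarith
  have hex : ∃ j, (m : ℝ) * y (a j) < max (2 : ℝ) (v j) := by
    by_contra hcon
    push Not at hcon
    have h3 := hS y hy.1
    have h4 : (W : ℝ) ≤ m * ∑ j, y (a j) := by
      rw [Finset.mul_sum, hWdef]
      push_cast
      exact Finset.sum_le_sum fun j _ => hcon j
    have h5 : g ≤ W / m - κ := min_le_right _ _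
    have h6 : (W : ℝ) / m ≤ ∑ j, y (a j) := by
      rw [div_le_iff₀ hmR]
      linarith
    linarith
  obtain ⟨j, hj⟩ := hex
  have hppos : 0 < p j := by
    rcases Nat.eq_zero_or_pos (p j) with h | h
    · have := hpv j
      rw [h, zero_mul] at this
      omega
    · exact h
  have hvj : (v j : ℝ) ≤ m * y (a j) := by
    have h3 : ZSeq (Multiset.replicate (p j) (a j)) := by
      refine ⟨?_, ?_, ?_⟩
      · intro h0
        have := congrArg Multiset.card h0
        rw [Multiset.card_replicate, Multiset.card_zero] at this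
        omega
      · rw [Multiset.sum_replicate, nsmul_eq_mul, hpa]
      · rw [Multiset.mem_replicate]
        rintro ⟨-, h0⟩
        exact ha j h0.symm
    have h4 := hy.le h3
    have h5 : ev y (Multiset.replicate (p j) (a j)) = p j * y (a j) := by simp [ev]
    rw [h5] at h4
    have h6 : (m : ℝ) = p j * v j := by exact_mod_cast (hpv j).symm
    have h7 : (0 : ℝ) ≤ v j := Nat.cast_nonneg _
    rw [h6]
    nlinarith
  have hunit : IsUnit (a j) := by
    by_contra h
    have h3 := hy.two_le (ha j) h
    exact absurd (max_le h3 hvj) (not_le.2 hj)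
  have hj2 : (m : ℝ) * y (a j) < 2 := by
    have h3 : m ∣ p j := by
      rw [← ZMod.natCast_eq_zero_iff]
      exact (hunit.mul_left_eq_zero).1 (hpa j)
    have h4 := Nat.le_of_dvd hppos h3
    have h5 : v j ≤ 1 := by
      by_contra h
      have h6 := Nat.mul_le_mul_left (p j) (show 2 ≤ v j by omega)
      rw [hpv j] at h6
      omega
    have h6 : max (2 : ℝ) (v j) = 2 := by
      apply max_eq_left
      have : (v j : ℝ) ≤ 1 := by exact_mod_cast h5
      linarith
    rwa [h6] at hj
  obtain ⟨e, he⟩ := hunit
  have h3 := optimal hw0 hy hmin e⁻¹ (by rw [inv_inv, he]; exact hj2)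
  have h4 := hS (zf e⁻¹) (fun x => by unfold zf; positivity)
  have h5 : (κ : ℝ) + 1 ≤ ∑ j, zf e⁻¹ (a j) := by
    unfold zf
    rw [← Finset.sum_div, le_div_iff₀ hmR, mul_comm]
    exact_mod_cast hq e⁻¹
  have h6 : g ≤ 1 := min_le_left _ _
  linarith

end Pool.Agent.WBP
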