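import Pool.Agent.MPC.Numeric
import Pool.Agent.WBP.FracW

/-!
# Patterns from fractional packings

The exponents `q x` divide `m`, `w x = m / q x`, and `a x` is killed by `q x`. If the degrees are not
too large then the character `a` has a pattern with many blocks, or there is a unit `u` such that
the sum of the representatives of `u * a` over every factor is equal to `m` times the degree.
-/

namespace Pool.Agent.WBP

open Pool.Agent.MPC Pool.Agent.SavChen

variable {r : ℕ} {J : Fin r → Type} [∀ i, Fintype (J i)] [∀ i, DecidableEq (J i)] {m : ℕ}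
  [NeZero m]

/-- nonzero multiples are at least the weight -/
lemma le_val {q w : ℕ} (hqw : q * w = m) {x : ZMod m} (hx : (q : ZMod m) * x = 0) (h0 : x ≠ 0) :
    w ≤ x.val := by
  have h1 : m ∣ q * x.val := by
    rw [← ZMod.natCast_eq_zero_iff]
    push_cast
    rw [ZMod.natCast_zmod_val, hx]
  have h3 : q * w ∣ q * x.val := hqw.dvd.trans h1
  have hq : 0 < q := by
    rcases Nat.eq_zero_or_pos q with h | h
    · rw [h, zero_mul] at hqw
      exact absurd hqw.symm (NeZero.ne m)
    · exact h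
  have h2 : w ∣ x.val := Nat.dvd_of_mul_dvd_mul_left hq h3
  exact Nat.le_of_dvd (Nat.pos_of_ne_zero fun h => h0 ((ZMod.val_eq_zero _).1 h)) h2

/-- the number of zeros -/
def zer (a : (Σ i, J i) → ZMod m) (i : Fin r) : ℕ :=
  (Finset.univ.filter fun j => a ⟨i, j⟩ = 0).card

omit [∀ i, DecidableEq (J i)] [NeZero m] in
lemma zer_add_supp (a : (Σ i, J i) → ZMod m) (i : Fin r) :
    zer a i + supp a i = Fintype.card (J i) := by
  rw [zer, supp, Finset.card_filter_add_card_filter_not]
  rfl

omit [∀ i, DecidableEq (J i)] [NeZero m] in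
/-- the weights of the coordinates on which the character is not trivial -/
lemma weights_lt {w : (Σ i, J i) → ℕ} (hw : ∀ x, w x < m) {a : (Σ i, J i) → ZMod m} {δ : Fin r → ℕ}
    (hδ' : ∀ i j, δ i * m + w ⟨i, j⟩ < ∑ j, w ⟨i, j⟩ + m) {i : Fin r} (hz : zer a i ≠ 0) :
    δ i * m < ∑ j with a ⟨i, j⟩ ≠ 0, w ⟨i, j⟩ + zer a i * m := by
  classical
  have h0 : (Finset.univ.filter fun j => a ⟨i, j⟩ = 0).Nonempty := by
    rw [← Finset.card_pos]
    exact Nat.pos_of_ne_zero hz
  obtain ⟨j₀, hj₀⟩ := h0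
  have h1 := hδ' i j₀
  have h2 : ∑ j, w ⟨i, j⟩ = ∑ j with a ⟨i, j⟩ = 0, w ⟨i, j⟩ +
      ∑ j with a ⟨i, j⟩ ≠ 0, w ⟨i, j⟩ := by
    rw [Finset.sum_filter_add_sum_filter_not]
  have h3 : ∑ j with a ⟨i, j⟩ = 0, w ⟨i, j⟩ + m ≤ w ⟨i, j₀⟩ + zer a i * m := by
    rw [← Finset.add_sum_erase _ _ hj₀]
    have h4 : ∑ j ∈ (Finset.univ.filter fun j => a ⟨i, j⟩ = 0).erase j₀, w ⟨i, j⟩ ≤
        (zer a i - 1) * m := by
      rw [zer, ← Finset.card_erase_of_mem hj₀, ← smul_eq_mul, ← Finset.sum_const]
      exact Finset.sum_le_sum fun j _ => (hw _).le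
    obtain ⟨z, hz'⟩ := Nat.exists_eq_succ_of_ne_zero hz
    rw [hz'] at h4 ⊢
    rw [Nat.succ_sub_one] at h4
    rw [Nat.succ_mul]
    omega
  omega

omit [∀ i, DecidableEq (J i)] in
/-- the sums of the representatives are not small -/
lemma le_tot {q w : (Σ i, J i) → ℕ} (hqw : ∀ x, q x * w x = m) (hw : ∀ x, w x < m)
    {a : (Σ i, J i) → ZMod m} (ha : ∀ x, (q x : ZMod m) * a x = 0)
    (ha0 : ∀ i, ∃ j, a ⟨i, j⟩ ≠ 0) (hsum : ∀ i, ∑ j, a ⟨i, j⟩ = 0) {δ : Fin r → ℕ}
    (hδ' : ∀ i j, δ i * m + w ⟨i, j⟩ < ∑ j, w ⟨i, j⟩ + m) (u : (ZMod m)ˣ) (i : Fin r) :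
    δ i * m ≤ tot a u i + zer a i * m ∧ (zer a i ≠ 0 → δ i * m < tot a u i + zer a i * m) := by
  classical
  have h1 : ∑ j with a ⟨i, j⟩ ≠ 0, w ⟨i, j⟩ ≤ tot a u i := by
    rw [tot]
    refine (Finset.sum_le_sum fun j hj => ?_).trans
      (Finset.sum_le_sum_of_subset (Finset.filter_subset (fun j => a ⟨i, j⟩ ≠ 0) _))
    apply le_val (hqw ⟨i, j⟩)
    · rw [mul_left_comm, ha, mul_zero]
    · intro h
      exact (Finset.mem_filter.1 hj).2 ((Units.mul_right_eq_zero u).1 h)
  by_cases hz : zer a i = 0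
  · refine ⟨?_, fun h => absurd hz h⟩
    obtain ⟨j, -⟩ := ha0 i
    have h2 := hδ' i j
    have h3 : ∑ j with a ⟨i, j⟩ ≠ 0, w ⟨i, j⟩ = ∑ j, w ⟨i, j⟩ := by
      rw [Finset.filter_true_of_mem]
      intro j _ h
      rw [zer, Finset.card_eq_zero, Finset.filter_eq_empty_iff] at hz
      exact hz (Finset.mem_univ j) h
    rw [h3] at h1
    obtain ⟨c, hc⟩ := dvd_tot hsum u i
    rw [hz, zero_mul, add_zero, hc, mul_comm m c]
    apply Nat.mul_le_mul_right
    rw [hc] at h1
    have h4 : δ i * m < (c + 1) * m := by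
      rw [Nat.succ_mul, mul_comm c m]
      omega
    exact Nat.lt_succ_iff.1 (Nat.lt_of_mul_lt_mul_right h4)
  · have h2 := weights_lt hw (a := a) hδ' hz
    exact ⟨by omega, fun _ => by omega⟩

/-- **Patterns from fractional packings.** -/
theorem exists_pattern_or_unit {q w : (Σ i, J i) → ℕ} (hqw : ∀ x, q x * w x = m)
    (hw : ∀ x, w x < m) {a : (Σ i, J i) → ZMod m} (ha : ∀ x, (q x : ZMod m) * a x = 0)
    (ha0 : ∀ i, ∃ j, a ⟨i, j⟩ ≠ 0) (hsum : ∀ i, ∑ j, a ⟨i, j⟩ = 0) {δ : Fin r → ℕ}
    (hδ : ∀ i, δ i * m < ∑ j, max 2 (w ⟨i, j⟩))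
    (hδ' : ∀ i j, δ i * m + w ⟨i, j⟩ < ∑ j, w ⟨i, j⟩ + m) :
    (∃ (Ω 𝔅 : Type) (_ : Fintype Ω) (_ : Fintype 𝔅) (_ : DecidableEq Ω) (_ : DecidableEq 𝔅)
      (s : Ω → Σ i, J i) (b : Ω → 𝔅) (d : Fin r → ℕ), Pattern a δ s b d) ∨
    ∃ u : (ZMod m)ˣ, ∀ i, (∀ j, a ⟨i, j⟩ ≠ 0) ∧
      ∑ j, ((u : ZMod m) * a ⟨i, j⟩).val = δ i * m := by
  classical
  have hm0 : 0 < m := NeZero.pos m
  have hle := le_tot hqw hw ha ha0 hsum hδ'
  by_cases H : ∃ u : (ZMod m)ˣ, ∑ i, tot a u i + (∑ i, zer a i) * m ≤ (∑ i, δ i) * m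
  · right
    obtain ⟨u, hu⟩ := H
    have h1 : ∀ i ∈ Finset.univ, δ i * m = tot a u i + zer a i * m := by
      rw [← Finset.sum_eq_sum_iff_of_le fun i _ => (hle u i).1, Finset.sum_add_distrib,
        ← Finset.sum_mul, ← Finset.sum_mul]
      apply le_antisymm _ hu
      rw [Finset.sum_mul, Finset.sum_mul, ← Finset.sum_add_distrib]
      exact Finset.sum_le_sum fun i _ => (hle u i).1
    refine ⟨u, fun i => ?_⟩
    have h2 : zer a i = 0 := by
      by_contra h
      exact absurd ((hle u i).2 h) (by rw [h1 i (Finset.mem_univ i)]; exact lt_irrefl _)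
    refine ⟨fun j hj => ?_, ?_⟩
    · rw [zer, Finset.card_eq_zero, Finset.filter_eq_empty_iff] at h2
      exact h2 (Finset.mem_univ j) hj
    · have h3 := h1 i (Finset.mem_univ i)
      rw [h2, zero_mul, add_zero] at h3
      exact h3.symm
  · left
    push Not at H
    have hr : Nonempty (Fin r) := by
      by_contra hcon
      rw [not_nonempty_iff] at hcon
      have := H 1
      simp at this
    have hslots : ∀ D : ℕ, ∀ x, (Finset.univ.filter fun w : {x // a x ≠ 0} × Fin D =>
        w.1.1 = x).card = if a x = 0 then 0 else D := by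
      intro D x
      split_ifs with hx
      · rw [Finset.card_eq_zero, Finset.filter_eq_empty_iff]
        rintro ⟨⟨y, hy⟩, c⟩ - h0
        exact hy ((congrArg a (show y = x from h0)).trans hx)
      · have h5 : (Finset.univ.filter fun w : {x // a x ≠ 0} × Fin D => w.1.1 = x) =
            ({⟨x, hx⟩} : Finset {x // a x ≠ 0}) ×ˢ (Finset.univ : Finset (Fin D)) := by
          ext ⟨⟨y, hy⟩, c⟩
          simp only [Finset.mem_filter, Finset.mem_univ, true_and, Finset.mem_product,
            Finset.mem_singleton, and_true, Subtype.mk.injEq]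
        rw [h5, Finset.card_product, Finset.card_singleton, one_mul, Finset.card_univ,
          Fintype.card_fin]
    have hsub : ∀ {M : Type} [AddCommMonoid M] (g : (Σ i, J i) → M),
        (∀ x, a x = 0 → g x = 0) → ∑ x : {x // a x ≠ 0}, g x.1 = ∑ i, ∑ j, g ⟨i, j⟩ := by
      intro M _ g hg
      rw [← Fintype.sum_sigma' (f := fun i j => g ⟨i, j⟩),
        ← Finset.sum_subtype (Finset.univ.filter fun x => a x ≠ 0) (by simp) g,
        Finset.sum_filter]
      apply Finset.sum_congr rfl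
      intro x _
      split_ifs with h
      · rfl
      · push Not at h
        rw [hg x h]
    have hsumS : ∑ x : {x // a x ≠ 0}, a x.1 = 0 := by
      rw [hsub a fun x hx => hx]
      exact Finset.sum_eq_zero fun i _ => hsum i
    have hzs : ∑ i, zer a i + ∑ i, supp a i = ∑ i, Fintype.card (J i) := by
      rw [← Finset.sum_add_distrib]
      exact Finset.sum_congr rfl fun i _ => zer_add_supp a i
    rcases Nat.lt_or_ge (∑ i, zer a i) (∑ i, δ i) with hlt | hge
    · obtain ⟨κ, hκ⟩ := Nat.exists_eq_add_of_lt hlt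
      have hmul : (∑ i, δ i) * m = m * (κ + 1) + (∑ i, zer a i) * m := by
        rw [hκ]
        ring
      have hN : m * (κ + 1) < ∑ x : {x // a x ≠ 0}, max 2 (w x.1) := by
        have h1 : ∀ i, δ i * m < ∑ j, (if a ⟨i, j⟩ ≠ 0 then max 2 (w ⟨i, j⟩) else 0) +
            zer a i * m := by
          intro i
          by_cases hz : zer a i = 0
          · rw [hz, zero_mul, add_zero]
            refine lt_of_lt_of_eq (hδ i) (Finset.sum_congr rfl fun j _ => ?_)
            rw [if_pos]
            intro h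
            rw [zer, Finset.card_eq_zero, Finset.filter_eq_empty_iff] at hz
            exact hz (Finset.mem_univ j) h
          · refine (weights_lt hw (a := a) hδ' hz).trans_le ?_
            rw [Finset.sum_filter]
            apply Nat.add_le_add_right
            apply Finset.sum_le_sum
            intro j _
            split_ifs
            · exact le_max_right _ _
            · exact le_rfl
        have h2 := Finset.sum_lt_sum_of_nonempty (s := Finset.univ) Finset.univ_nonempty
          fun i (_ : i ∈ Finset.univ) => h1 i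
        rw [Finset.sum_add_distrib, ← Finset.sum_mul, ← Finset.sum_mul, hmul] at h2
        have h3 : ∑ x : {x // a x ≠ 0}, max 2 (w x.1) =
            ∑ i, ∑ j, (if a ⟨i, j⟩ ≠ 0 then max 2 (w ⟨i, j⟩) else 0) := by
          rw [← hsub (fun x => if a x ≠ 0 then max 2 (w x) else 0) fun x hx => by simp [hx]]
          apply Finset.sum_congr rfl
          intro x _
          rw [if_pos x.2]
        rw [h3]
        omega
      obtain ⟨D, hD, hsplit⟩ := fracW (fun x : {x // a x ≠ 0} => a x.1) (fun x => x.2) hsumS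
        (p := fun x => q x.1) (v := fun x => w x.1) (fun x => hqw x.1) (fun x => ha x.1)
        (κ + 1) hN (fun u => by
          rw [hsub (fun x => ((u : ZMod m) * a x).val) fun x hx => by simp [hx]]
          have h1 := H u
          rw [hmul] at h1
          have h2 : m ∣ ∑ i, tot a u i := Finset.dvd_sum fun i _ => dvd_tot hsum u i
          obtain ⟨c, hc⟩ := h2
          change m * (κ + 1 + 1) ≤ ∑ i, tot a u i
          rw [hc] at h1 ⊢
          apply Nat.mul_le_mul_left
          have h3 : m * (κ + 1) < m * c := by omega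
          exact Nat.lt_of_mul_lt_mul_left h3)
      obtain ⟨e, b, h⟩ := build (δ := δ) (a := a) (d := fun _ => D) (fun i _ => ha0 i)
        (Ω := {x // a x ≠ 0} × Fin D) (s := fun w => w.1.1) (hslots D)
        (q := D * (κ + 1) + 1) (by
          rw [← Finset.mul_sum, ← Finset.mul_sum, Finset.sum_add_distrib, ← hzs, hκ]
          have : D * (∑ i, zer a i + κ + 1 + ∑ i, supp a i) =
            D * (∑ i, zer a i + ∑ i, supp a i) + D * (κ + 1) := by ring
          omega) hsplit
      exact ⟨_, Fin e, inferInstance, inferInstance, inferInstance, inferInstance, _, b, _, h⟩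
    · have hne : (Finset.univ : Finset ({x // a x ≠ 0} × Fin 1)).Nonempty := by
        obtain ⟨i⟩ := hr
        obtain ⟨j, hj⟩ := ha0 i
        exact ⟨⟨⟨⟨i, j⟩, hj⟩, 0⟩, Finset.mem_univ _⟩
      obtain ⟨e, b, h⟩ := build (δ := δ) (a := a) (d := fun _ => 1) (fun i _ => ha0 i)
        (Ω := {x // a x ≠ 0} × Fin 1) (s := fun w => w.1.1) (hslots 1)
        (q := 1) (by
          simp only [one_mul]
          rw [Finset.sum_add_distrib]
          omega) (splits_one hne (by
          rw [Fintype.sum_prod_type]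
          simpa using hsumS))
      exact ⟨_, Fin e, inferInstance, inferInstance, inferInstance, inferInstance, _, b, _, h⟩

end Pool.Agent.WBP
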