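import Pool.Agent.WBP.MainH
import Pool.Agent.WBP.BridgeK
import Pool.Agent.WBP.PatternW
import Pool.Agent.WBP.Bins

/-!
# The hypothesis on the characters
-/

set_option autoImplicit false

noncomputable section

namespace Pool.Agent.WBP

open Pool.Agent.ZCyc Pool.Agent.DCI57 Pool.Agent.GBB
open scoped LinearAlgebra.Projectivization

variable {d N : ℕ}

/-- **The hypothesis on the characters.** -/
theorem charHyp [NeZero d] {r : ℕ} (c : Fin r → Fin N → ℂ) {w : Fin N → ℕ}
    (hw : ∀ j, w j ∣ d ∧ w j < d)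
    (hK : ∀ j, r * d + w j < ∑ j, w j + d)
    (hK' : r * d ≤ ∑ j, w j ∨ r * d < ∑ j, max 2 (w j))
    (hB : ∀ b : Fin N → ℕ, (∀ j, 0 < b j) → (∀ j, w j ∣ b j) → ∑ j, b j = r * d →
      ∃ B : Fin N → Fin r, ∀ s, ∑ j with B j = s, b j = d) :
    CharHyp d r w (Diag d c) := by
  classical
  choose q hq using fun j => (hw j).1
  have hqw : ∀ j, q j * w j = d := fun j => by rw [mul_comm, ← hq j]
  have hdpos : 0 < d := NeZero.pos d
  have hwpos : ∀ j, 0 < w j := by
    intro j
    rcases Nat.eq_zero_or_pos (w j) with h | h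
    · have := hqw j
      rw [h, mul_zero] at this
      exact absurd this.symm (NeZero.ne d)
    · exact h
  -- types with a division
  have htyp : ∀ (a : Fin N → ZMod d) (t : (ZMod d)ˣ) (b : Fin N → ℕ), (∀ j, 0 < b j) →
      (∀ j, w j ∣ b j) → ∑ j, b j = r * d → (∀ j, a j = (t : ZMod d) * (b j : ZMod d)) →
      (∀ j, a j ≠ 0) → Typ r a t b := by
    intro a t b hb1 hb2 hb3 hab ha0
    obtain ⟨B, hB⟩ := hB b hb1 hb2 hb3
    refine ⟨hb1, hb3, hab, ha0, B, ?_, ?_⟩
    · intro s
      by_contra hcon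
      push Not at hcon
      have h1 := hB s
      rw [Finset.sum_eq_zero (fun j hj => absurd (Finset.mem_filter.1 hj).2 (hcon j))] at h1
      omega
    · intro s
      rw [Finset.sum_congr rfl fun j _ => hab j, ← Finset.mul_sum, ← Nat.cast_sum, hB s,
        ZMod.natCast_self, mul_zero]
  refine ⟨fun {k} a haH ha0 hsum => ?_⟩
  have haq : ∀ x : Σ _ : Fin k, Fin N, (q x.2 : ZMod d) * a x.1 x.2 = 0 := by
    rintro ⟨i, j⟩
    have h1 := haH i (Pi.single j (q j : ZMod d)) (by
      intro l
      by_cases hl : l = j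
      · subst hl
        rw [Pi.single_eq_same, ← Nat.cast_mul, mul_comm, hqw, ZMod.natCast_self]
      · rw [Pi.single_eq_of_ne hl, mul_zero])
    rw [Finset.sum_eq_single j] at h1
    · rwa [Pi.single_eq_same, mul_comm] at h1
    · intro l _ hl
      rw [Pi.single_eq_of_ne hl, mul_zero]
    · simp
  have ha0' : ∀ i, ∃ j, a i j ≠ 0 := fun i => Function.ne_iff.1 (ha0 i)
  rcases hK' with hK' | hK'
  · -- `k ≤ 0`
    by_cases hu : (¬ ∃ t : ℕ, Nat.Coprime t d ∧ ∀ x : Σ _ : Fin k, Fin N, a x.1 x.2 ≠ 0 →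
        a x.1 x.2 = ((t * w x.2 : ℕ) : ZMod d)) ∨ ∃ (i : Fin k) (j : Fin N), a i j ≠ 0 ∧
          ((∃ j' : Fin N, a i j' = 0) ∨ r * d < ∑ j, w j)
    · left
      exact E_zero_of_pattern c a hsum (exists_pattern_of_ne (J := fun _ : Fin k => Fin N)
        (q := fun x => q x.2) (w := fun x => w x.2) (fun x => hqw x.2) hdpos
        (fun x => (hw x.2).2) (a := fun x => a x.1 x.2) haq (δ := fun _ => r)
        (fun _ _ => hK') hu)
    · right
      push Not at hu
      obtain ⟨⟨t, ht, h1⟩, h2⟩ := hu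
      have h3 : ∀ i j, a i j ≠ 0 := by
        intro i j
        obtain ⟨j', hj'⟩ := ha0' i
        exact (h2 i j' hj').1 j
      have h4 : ∀ i j, a i j = ((t * w j : ℕ) : ZMod d) := fun i j => h1 ⟨i, j⟩ (h3 i j)
      refine ⟨ZMod.unitOfCoprime t ht, fun _ => w, fun i => ?_⟩
      obtain ⟨j', hj'⟩ := ha0' i
      refine ⟨htyp _ _ _ hwpos (fun _ => dvd_rfl) (le_antisymm (h2 i j' hj').2 hK')
        (fun j => ?_) (h3 i), fun j => dvd_rfl⟩
      rw [h4, ZMod.coe_unitOfCoprime, Nat.cast_mul]
  · rcases exists_pattern_or_unit (J := fun _ : Fin k => Fin N) (q := fun x => q x.2)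
      (w := fun x => w x.2) (fun x => hqw x.2) (fun x => (hw x.2).2)
      (a := fun x => a x.1 x.2) haq ha0' hsum (δ := fun _ => r) (fun _ => hK')
      (fun _ j => hK j) with h | ⟨u, hu⟩
    · left
      exact E_zero_of_pattern c a hsum h
    · right
      refine ⟨u⁻¹, fun i j => ((u : ZMod d) * a i j).val, fun i => ?_⟩
      have h1 : ∀ j, w j ∣ ((u : ZMod d) * a i j).val := by
        intro j
        have h2 : d ∣ q j * ((u : ZMod d) * a i j).val := by
          rw [← ZMod.natCast_eq_zero_iff]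
          push_cast
          rw [ZMod.natCast_zmod_val, mul_left_comm, haq ⟨i, j⟩, mul_zero]
        have h3 : 0 < q j := by
          rcases Nat.eq_zero_or_pos (q j) with h | h
          · have := hqw j
            rw [h, zero_mul] at this
            exact absurd this.symm (NeZero.ne d)
          · exact h
        exact Nat.dvd_of_mul_dvd_mul_left h3 ((hqw j).dvd.trans h2)
      refine ⟨htyp _ _ _ (fun j => ?_) h1 (hu i).2 (fun j => ?_) (hu i).1, h1⟩
      · apply Nat.pos_of_ne_zero
        intro h2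
        exact (hu i).1 j ((Units.mul_right_eq_zero u).1 ((ZMod.val_eq_zero _).1 h2))
      · rw [ZMod.natCast_zmod_val, ← mul_assoc, Units.inv_mul, one_mul]

/-- the weights, and the number of the coordinates of weight one -/
lemma sum_max {w : Fin N → ℕ} (hw : ∀ j, 0 < w j) :
    ∑ j, max 2 (w j) = ∑ j, w j + (Finset.univ.filter fun j => w j = 1).card := by
  rw [Finset.card_filter, ← Finset.sum_add_distrib]
  apply Finset.sum_congr rfl
  intro j _
  have := hw j
  split_ifs with h
  · rw [h]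
    rfl
  · omega

/-- the division into groups exists for one equation and for the weights one -/
theorem exists_division {r : ℕ} {w : Fin N → ℕ}
    (hK : ∀ j, r * d + w j < ∑ j, w j + d) (hN : 0 < N)
    (hB : r = 1 ∨ (∀ j, w j = 1) ∨ ∀ b : Fin N → ℕ, (∀ j, 0 < b j) → (∀ j, w j ∣ b j) →
      ∑ j, b j = r * d → ∃ B : Fin N → Fin r, ∀ s, ∑ j with B j = s, b j = d)
    (b : Fin N → ℕ) (hb : ∀ j, 0 < b j) (hwb : ∀ j, w j ∣ b j) (hsum : ∑ j, b j = r * d) :
    ∃ B : Fin N → Fin r, ∀ s, ∑ j with B j = s, b j = d := by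
  rcases hB with rfl | hB | hB
  · exact exists_bins b hb hsum (Or.inl rfl)
  · apply exists_bins b hb hsum
    right
    have h1 : ∑ j, w j = N := by
      rw [Finset.sum_congr rfl fun j _ => hB j]
      simp
    have := hK ⟨0, hN⟩
    rw [hB, h1] at this
    omega
  · exact hB b hb hwb hsum

end Pool.Agent.WBP
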