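import Pool.Agent.GBB.Defs2

/-!
# Zero-cycles on the powers of a quotient of a diagonal complete intersection: definitions

`X` is a diagonal complete intersection of degree `d` in the complex projective space with `N`
homogeneous coordinates, and `H` is the group of the automorphisms `x ↦ (ζ j * x j)_j` of `X`, where
`ζ j` is a `w j`-th root of unity (`w j` divides `d`). The zero-cycles on `(X / H) ^ m` with rational
coefficients are the zero-cycles on `X ^ m` modulo the differences `[h p] - [p]`, `h ∈ H ^ m`.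
-/

set_option autoImplicit false

noncomputable section

namespace Pool.Agent.WBP

open Pool.Agent.ZCyc Pool.Agent.DCI57 Pool.Agent.GBB
open scoped LinearAlgebra.Projectivization

variable {d m m' N : ℕ}

/-- The automorphism of the power of the projective space which multiplies the coordinates of the
factor with number `i` by the roots of unity `ζ i j`. -/
def twist (ζ : Fin m → Fin N → rootsOfUnity d ℂ) (p : Pts m N) : Pts m N := fun i =>
  Projectivization.mk ℂ (fun j => ((ζ i j : ℂˣ) : ℂ) * (p i).rep j) (fac_ne (ζ i) (p i))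

/-- The differences `[h p] - [p]` for points `p` of `X ^ m` and elements `h` of `H ^ m`. -/
def coinv (d : ℕ) {N : ℕ} (w : Fin N → ℕ) (X : Set (ℙ ℂ (Fin N → ℂ))) (m : ℕ) :
    Submodule ℚ (Pts m N →₀ ℚ) :=
  Submodule.span ℚ {z | ∃ (ζ : Fin m → Fin N → rootsOfUnity d ℂ) (p : Pts m N),
    (∀ i j, ζ i j ^ w j = 1) ∧ OnX X p ∧ z = Finsupp.single (twist ζ p) 1 - Finsupp.single p 1}

/-- The zero-cycles on `X ^ m` whose image in `(X / H) ^ m` is rationally equivalent to zero (with
rational coefficients). -/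
def ratEqH (d : ℕ) {N : ℕ} (w : Fin N → ℕ) (X : Set (ℙ ℂ (Fin N → ℂ))) (m : ℕ) :
    Submodule ℚ (Pts m N →₀ ℚ) :=
  ratEq ℚ X m ⊔ coinv d w X m

/-- The filtration on the zero-cycles of `(X / H) ^ m`, where `n = dim X`: its step with number `ν`
is spanned by the products of zero-cycles of which at least `ν / n` have degree zero. -/
def FilH (n d : ℕ) {N : ℕ} (w : Fin N → ℕ) (X : Set (ℙ ℂ (Fin N → ℂ))) (m ν : ℕ) :
    Submodule ℚ (Pts m N →₀ ℚ) :=
  Submodule.span ℚ {z | ∃ (I : Finset (Fin m)) (x y : Pts m N), OnX X x ∧ OnX X y ∧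
    ν ≤ n * I.card ∧ z = cyc I x y} ⊔ ratEqH d w X m

/-- The form with the polynomial `P` is invariant under `H ^ k`: it is a form on `(X / H) ^ k`. -/
def InvForm (w : Fin N → ℕ) {k : ℕ} (P : MvPolynomial (Fin k × Fin N) ℂ) : Prop :=
  ∀ s ∈ P.support, ∀ i j, w j ∣ s (i, j) + 1

/-- The correspondence `γ` from `(X / H) ^ m` to `(X / H) ^ m'` acts as zero on the holomorphic
`ν`-forms, where `X` is a complete intersection of dimension `n` of `r` hypersurfaces of degree
`d`. -/
def KillsNuFormsH (n r : ℕ) (w : Fin N → ℕ) {X : Set (ℙ ℂ (Fin N → ℂ))} (γ : Mor d m m' X →₀ ℚ)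
    (ν : ℕ) : Prop :=
  ∀ k : ℕ, ν = n * k → ∀ e : ℕ, (k = 0 ∨ e + N = r * d) →
    ∀ (I : Fin k ↪o Fin m) (J : Fin k ↪o Fin m') (P : MvPolynomial (Fin k × Fin N) ℂ),
      MultiHom e P → InvForm w P → (γ.sum fun f c => (c : ℂ) • pullComp n f I J P) = 0

/-- the combination of automorphisms acts as zero on the invariant forms of top degree -/
def KillsFormsH {k : ℕ} (n r : ℕ) (w : Fin N → ℕ) (γ : Sym d k N →₀ ℚ) : Prop :=
  ∀ e : ℕ, e + N = r * d → ∀ P : MvPolynomial (Fin k × Fin N) ℂ, MultiHom e P → InvForm w P →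
    (γ.sum fun g c => (c : ℂ) • g.pull n P) = 0

end Pool.Agent.WBP
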