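import Pool.Agent.GBB.Filt
import Pool.Agent.GBB.Funct
import Pool.Agent.GBB.MapCyc
import Pool.Agent.WBP.DefsH

/-!
# The filtration on the zero-cycles of the powers of a quotient
-/

set_option autoImplicit false

noncomputable section

namespace Pool.Agent.WBP

open Pool.Agent.ZCyc Pool.Agent.DCI57 Pool.Agent.GBB
open scoped LinearAlgebra.Projectivization

variable {d m m' N : ℕ} {X : Set (ℙ ℂ (Fin N → ℂ))} {w : Fin N → ℕ}

theorem onX_twist (hX : Stab d X) (ζ : Fin m → Fin N → rootsOfUnity d ℂ) {p : Pts m N}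
    (hp : OnX X p) : OnX X (twist ζ p) := fun i => hX (ζ i) _ (hp i)

theorem ratEqH_le_FilH (n ν : ℕ) : ratEqH d w X m ≤ FilH n d w X m ν := le_sup_right

theorem FilH_eq (n ν : ℕ) : FilH n d w X m ν = Fil n X m ν ⊔ coinv d w X m := by
  unfold FilH Fil ratEqH
  rw [sup_assoc]

theorem Fil_le_FilH (n ν : ℕ) : Fil n X m ν ≤ FilH n d w X m ν := by
  rw [FilH_eq]
  exact le_sup_left

theorem FilH_anti (n ν : ℕ) : FilH n d w X m (ν + 1) ≤ FilH n d w X m ν := by
  rw [FilH_eq, FilH_eq]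
  exact sup_le_sup_right (Fil_anti n ν) _

theorem coinv_le_Fil (hX : Stab d X) (n : ℕ) (hn : 1 ≤ n) : coinv d w X m ≤ Fil n X m 1 := by
  classical
  unfold coinv
  rw [Submodule.span_le]
  rintro z ⟨ζ, p, -, hp, rfl⟩
  rw [SetLike.mem_coe, Fil_one n hn]
  constructor
  · intro q hq
    have h1 := Finsupp.support_sub hq
    rcases Finset.mem_union.1 h1 with h | h
    · have h2 := Finset.mem_singleton.1 (Finsupp.support_single_subset h)
      rw [h2]
      exact onX_twist hX ζ hp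
    · have h2 := Finset.mem_singleton.1 (Finsupp.support_single_subset h)
      rw [h2]
      exact hp
  · rw [Finsupp.sum_sub_index (fun _ _ _ => rfl), Finsupp.sum_single_index rfl,
      Finsupp.sum_single_index rfl, sub_self]

theorem FilH_zero (hX : Stab d X) (n : ℕ) (hn : 1 ≤ n) (z : Pts m N →₀ ℚ) :
    z ∈ FilH n d w X m 0 ↔ ∀ p ∈ z.support, OnX X p := by
  rw [FilH_eq, sup_eq_left.2 ((coinv_le_Fil hX n hn).trans (Fil_anti n 0)), Fil_zero]

theorem FilH_one (hX : Stab d X) (n : ℕ) (hn : 1 ≤ n) (z : Pts m N →₀ ℚ) :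
    z ∈ FilH n d w X m 1 ↔ (∀ p ∈ z.support, OnX X p) ∧ (z.sum fun _ c => c) = 0 := by
  rw [FilH_eq, sup_eq_left.2 (coinv_le_Fil hX n hn), Fil_one n hn]

theorem FilH_two (n : ℕ) (hn : 2 ≤ n) :
    FilH n d w X m 2 = FilH n d w X m 1 := by
  rw [FilH_eq, FilH_eq, Fil_two n hn]

theorem FilH_top (n : ℕ) (hn : 1 ≤ n) : FilH n d w X m (n * m + 1) = ratEqH d w X m := by
  rw [FilH_eq, Fil_top n hn]
  rfl

/-- twists commute -/
private lemma mk_comm (q : ℙ ℂ (Fin N → ℂ)) (η ζ : Fin N → ℂˣ)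
    (h1 : (fun l => (ζ l : ℂ) * q.rep l) ≠ 0) (h2 : (fun l => (η l : ℂ) * q.rep l) ≠ 0)
    (h3 : (fun l => (η l : ℂ) * (Projectivization.mk ℂ (fun l => (ζ l : ℂ) * q.rep l) h1).rep l) ≠ 0)
    (h4 : (fun l => (ζ l : ℂ) * (Projectivization.mk ℂ (fun l => (η l : ℂ) * q.rep l) h2).rep l) ≠ 0) :
    Projectivization.mk ℂ
      (fun l => (η l : ℂ) * (Projectivization.mk ℂ (fun l => (ζ l : ℂ) * q.rep l) h1).rep l) h3 =
    Projectivization.mk ℂ
      (fun l => (ζ l : ℂ) * (Projectivization.mk ℂ (fun l => (η l : ℂ) * q.rep l) h2).rep l) h4 := by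
  obtain ⟨a, ha⟩ := Projectivization.exists_smul_eq_mk_rep ℂ (fun l => (ζ l : ℂ) * q.rep l) h1
  obtain ⟨b, hb⟩ := Projectivization.exists_smul_eq_mk_rep ℂ (fun l => (η l : ℂ) * q.rep l) h2
  rw [Projectivization.mk_eq_mk_iff]
  refine ⟨a * b⁻¹, ?_⟩
  funext l
  have e1 := congrFun ha l
  have e2 := congrFun hb l
  change ((a * b⁻¹ : ℂˣ) : ℂ) * ((ζ l : ℂ) * _) = (η l : ℂ) * _
  rw [← e1, ← e2]
  change ((a * b⁻¹ : ℂˣ) : ℂ) * ((ζ l : ℂ) * ((b : ℂ) * ((η l : ℂ) * q.rep l))) =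
    (η l : ℂ) * ((a : ℂ) * ((ζ l : ℂ) * q.rep l))
  rw [Units.val_mul, Units.val_inv_eq_inv_val]
  field_simp

/-- morphisms and twists -/
theorem coinv_map (hX : Stab d X) (f : Mor d m m' X) :
    (coinv d w X m).map (Finsupp.lmapDomain ℚ ℚ f.app) ≤ coinv d w X m' := by
  unfold coinv
  rw [Submodule.map_span_le]
  rintro z ⟨ζ, p, hζ, hp, rfl⟩
  rw [map_sub, Finsupp.lmapDomain_apply, Finsupp.lmapDomain_apply, Finsupp.mapDomain_single,
    Finsupp.mapDomain_single]
  apply Submodule.subset_span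
  let ζ' : Fin m' → Fin N → rootsOfUnity d ℂ := fun j => match f j with
    | .const _ _ => 1
    | .fac i _ => ζ i
  refine ⟨ζ', f.app p, ?_, onX_app hX f p hp, ?_⟩
  · intro j l
    change (match f j with
      | .const _ _ => (1 : Fin N → rootsOfUnity d ℂ)
      | .fac i _ => ζ i) l ^ w l = 1
    cases f j with
    | const q hq => exact one_pow _
    | fac i η => exact hζ i l
  · congr 2
    funext j
    change (f j).app (twist ζ p) = Projectivization.mk ℂ
      (fun l => ((ζ' j l : ℂˣ) : ℂ) * ((f j).app p).rep l) _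
    have hζ'j : ζ' j = (match f j with
      | .const _ _ => (1 : Fin N → rootsOfUnity d ℂ)
      | .fac i _ => ζ i) := rfl
    have key : ∀ (c : Comp d m X) (ξ : Fin N → rootsOfUnity d ℂ), (ξ = match c with
      | .const _ _ => (1 : Fin N → rootsOfUnity d ℂ)
      | .fac i _ => ζ i) → c.app (twist ζ p) = Projectivization.mk ℂ
        (fun l => ((ξ l : ℂˣ) : ℂ) * (c.app p).rep l) (fac_ne ξ (c.app p)) := by
      intro c ξ hξ
      cases c with
      | const q hq =>
        subst hξ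
        change q = _
        conv_lhs => rw [← q.mk_rep]
        congr 1
        funext l
        change q.rep l = ((1 : ℂˣ) : ℂ) * q.rep l
        rw [Units.val_one, one_mul]
      | fac i η =>
        subst hξ
        change Projectivization.mk ℂ (fun l => ((η l : ℂˣ) : ℂ) * (Projectivization.mk ℂ
          (fun l => ((ζ i l : ℂˣ) : ℂ) * (p i).rep l) (fac_ne (ζ i) (p i))).rep l) _ =
          Projectivization.mk ℂ (fun l => ((ζ i l : ℂˣ) : ℂ) * (Projectivization.mk ℂ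
          (fun l => ((η l : ℂˣ) : ℂ) * (p i).rep l) (fac_ne η (p i))).rep l) _
        exact mk_comm (p i) (fun l => (η l : ℂˣ)) (fun l => (ζ i l : ℂˣ)) _ _ _ _
    exact key (f j) (ζ' j) hζ'j

theorem ratEqH_map (hX : Stab d X) (f : Mor d m m' X) :
    (ratEqH d w X m).map (Finsupp.lmapDomain ℚ ℚ f.app) ≤ ratEqH d w X m' := by
  unfold ratEqH
  rw [Submodule.map_sup]
  exact sup_le_sup (ratEq_map hX f) (coinv_map hX f)

theorem FilH_map (hX : Stab d X) (n ν : ℕ) (f : Mor d m m' X) :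
    (FilH n d w X m ν).map (Finsupp.lmapDomain ℚ ℚ f.app) ≤ FilH n d w X m' ν := by
  rw [FilH_eq, FilH_eq, Submodule.map_sup]
  exact sup_le_sup (Fil_map hX n ν f) (coinv_map hX f)

end Pool.Agent.WBP
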