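import Pool.Agent.GBB.Thm
import Pool.Agent.WBP.CharK
import Pool.Agent.WBP.GradH

/-!
# Conditions 1-4 for all powers of a quotient of a diagonal complete intersection
-/

set_option autoImplicit false

noncomputable section

namespace Pool.Agent.WBP

open Pool.Agent.ZCyc Pool.Agent.DCI57 Pool.Agent.GBB
open scoped LinearAlgebra.Projectivization

variable {d N : ℕ}

theorem conditionsH [NeZero d] {n r : ℕ} (hn : 1 ≤ n) (hN : r < N) {w : Fin N → ℕ}
    {c : Fin r → Fin N → ℂ} (hch : CharHyp d r w (Diag d c)) (hsw : HasSwap (d := d) n r c) :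
    (∀ m ν, ratEqH d w (Diag d c) m ≤ FilH n d w (Diag d c) m ν ∧
      FilH n d w (Diag d c) m (ν + 1) ≤ FilH n d w (Diag d c) m ν) ∧
    (∀ m z, z ∈ FilH n d w (Diag d c) m 0 ↔ ∀ p ∈ z.support, OnX (Diag d c) p) ∧
    (∀ m z, z ∈ FilH n d w (Diag d c) m 1 ↔
      (∀ p ∈ z.support, OnX (Diag d c) p) ∧ (z.sum fun _ c => c) = 0) ∧
    (2 ≤ n → ∀ m, FilH n d w (Diag d c) m 2 = FilH n d w (Diag d c) m 1) ∧
    (∀ m, FilH n d w (Diag d c) m (n * m + 1) = ratEqH d w (Diag d c) m) ∧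
    (∀ m m' ν (γ : Mor d m m' (Diag d c) →₀ ℚ),
      (FilH n d w (Diag d c) m ν).map (pushM γ) ≤ FilH n d w (Diag d c) m' ν) ∧
    (∀ m m' ν (γ : Mor d m m' (Diag d c) →₀ ℚ), KillsNuFormsH n r w γ ν →
      (FilH n d w (Diag d c) m ν).map (pushM γ) ≤ FilH n d w (Diag d c) m' (ν + 1)) := by
  refine ⟨fun m ν => ⟨ratEqH_le_FilH n ν, FilH_anti n ν⟩,
    fun m z => FilH_zero (stab_diag c) n (by omega) z,
    fun m z => FilH_one (stab_diag c) n (by omega) z, fun hn2 m => FilH_two n hn2,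
    fun m => FilH_top n (by omega), fun m m' ν γ => ?_, fun m m' ν γ hγ => ?_⟩
  · rw [Submodule.map_le_iff_le_comap]
    intro z hz
    rw [Submodule.mem_comap]
    have h1 : pushM γ z = ∑ f ∈ γ.support, γ f • z.mapDomain f.app := by
      unfold pushM
      rw [Finsupp.sum, LinearMap.sum_apply]
      rfl
    rw [h1]
    refine Submodule.sum_mem _ fun f _ => Submodule.smul_mem _ _ ?_
    exact FilH_map (stab_diag c) n ν f (Submodule.mem_map_of_mem hz)
  · exact FilH_grad n r (by omega) (stab_diag c) (diag_nonempty hN c)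
      (fun k γ hk hγ x y hx hy => mainH hch hsw hk γ hγ x y hx hy) γ ν hγ

end Pool.Agent.WBP
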