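import Mathlib

/-!
# The Chinese remainder theorem for moduli which are not coprime
-/

namespace Pool.Agent.WBP

lemma gcd_lcm_dvd (u v b : ℕ) : Nat.gcd (Nat.lcm u v) b ∣ Nat.lcm (Nat.gcd u b) (Nat.gcd v b) := by
  rw [Nat.dvd_iff_prime_pow_dvd_dvd]
  intro p k hp hk
  have h1 : p ^ k ∣ b := hk.trans (Nat.gcd_dvd_right _ _)
  have h2 : p ^ k ∣ Nat.lcm u v := hk.trans (Nat.gcd_dvd_left _ _)
  rcases Nat.eq_zero_or_pos u with rfl | hu
  · rw [Nat.gcd_zero_left]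
    exact h1.trans (Nat.dvd_lcm_left _ _)
  rcases Nat.eq_zero_or_pos v with rfl | hv
  · rw [Nat.gcd_zero_left]
    exact h1.trans (Nat.dvd_lcm_right _ _)
  have h3 : p ^ k ∣ u ∨ p ^ k ∣ v := by
    rw [hp.pow_dvd_iff_le_factorization (Nat.lcm_pos hu hv).ne', Nat.factorization_lcm hu.ne' hv.ne']
      at h2
    rw [hp.pow_dvd_iff_le_factorization hu.ne', hp.pow_dvd_iff_le_factorization hv.ne']
    exact le_sup_iff.1 h2
  rcases h3 with h3 | h3
  · exact (Nat.dvd_gcd h3 h1).trans (Nat.dvd_lcm_left _ _)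
  · exact (Nat.dvd_gcd h3 h1).trans (Nat.dvd_lcm_right _ _)

lemma modEq_lcm {x y u v : ℕ} (h1 : x ≡ y [MOD u]) (h2 : x ≡ y [MOD v]) :
    x ≡ y [MOD Nat.lcm u v] := by
  rw [Nat.modEq_iff_dvd] at *
  rw [← Int.natAbs_dvd_natAbs] at *
  exact Nat.lcm_dvd h1 h2

lemma modEq_gcd_lcm {x y b : ℕ} {ι : Type*} (A : Finset ι) (q : ι → ℕ)
    (h : ∀ i ∈ A, x ≡ y [MOD Nat.gcd (q i) b]) : x ≡ y [MOD Nat.gcd (A.lcm q) b] := by
  classical
  induction A using Finset.induction_on with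
  | empty => simp [Nat.modEq_one]
  | insert i A hi ih =>
    rw [Finset.lcm_insert]
    refine Nat.ModEq.of_dvd (gcd_lcm_dvd _ _ _) (modEq_lcm ?_ ?_)
    · exact h i (Finset.mem_insert_self _ _)
    · exact ih fun j hj => h j (Finset.mem_insert_of_mem hj)

/-- the Chinese remainder theorem for moduli which are not coprime -/
theorem exists_crt {ι : Type*} (A : Finset ι) (q c : ι → ℕ)
    (h : ∀ i ∈ A, ∀ j ∈ A, c i ≡ c j [MOD Nat.gcd (q i) (q j)]) :
    ∃ t : ℕ, ∀ i ∈ A, t ≡ c i [MOD q i] := by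
  classical
  induction A using Finset.induction_on with
  | empty => exact ⟨0, by simp⟩
  | insert i A hi ih =>
    obtain ⟨t, ht⟩ := ih fun j hj l hl => h j (Finset.mem_insert_of_mem hj) l
      (Finset.mem_insert_of_mem hl)
    have h1 : t ≡ c i [MOD Nat.gcd (A.lcm q) (q i)] := by
      apply modEq_gcd_lcm
      intro j hj
      exact ((ht j hj).of_dvd (Nat.gcd_dvd_left _ _)).trans
        (h j (Finset.mem_insert_of_mem hj) i (Finset.mem_insert_self _ _))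
    obtain ⟨s, hs1, hs2⟩ := Nat.chineseRemainder' h1
    refine ⟨s, fun j hj => ?_⟩
    rcases Finset.mem_insert.1 hj with rfl | hj
    · exact hs2
    · exact (hs1.of_dvd (Finset.dvd_lcm hj)).trans (ht j hj)

/-- a unit modulo a divisor lifts to a unit -/
lemma exists_coprime_lift {L m t : ℕ} (hm : 0 < m) (hL : L ∣ m) (ht : Nat.Coprime t L) :
    ∃ s : ℕ, Nat.Coprime s m ∧ s ≡ t [MOD L] := by
  have : NeZero m := ⟨hm.ne'⟩
  have : NeZero L := ⟨(Nat.pos_of_dvd_of_pos hL hm).ne'⟩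
  obtain ⟨u, hu⟩ := ZMod.unitsMap_surjective hL (ZMod.unitOfCoprime t ht)
  refine ⟨(u : ZMod m).val, ZMod.val_coe_unit_coprime u, ?_⟩
  have h1 := congrArg (fun v : (ZMod L)ˣ => (v : ZMod L)) hu
  simp only [ZMod.unitsMap_val, ZMod.coe_unitOfCoprime] at h1
  rw [← ZMod.natCast_eq_natCast_iff]
  rw [← h1]
  rw [ZMod.cast_eq_val]

end Pool.Agent.WBP
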