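import Pool.Agent.MPC.Pattern
import Pool.Agent.WBP.Crt

/-!
# Patterns from one block

The exponents `q x` divide `m`, and `a x` is killed by `q x`. The `q x` copies of the coordinate `x`
are a block with sum zero; if there is one more block `T` of small weight, then there is a pattern
with many blocks.
-/

namespace Pool.Agent.WBP

open Pool.Agent.MPC

variable {r : ℕ} {J : Fin r → Type} [∀ i, Fintype (J i)] [∀ i, DecidableEq (J i)] {m : ℕ}

/-- a pattern is given by the multiplicities of the coordinates in the blocks -/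
lemma pattern_of_mult {a : (Σ i, J i) → ZMod m} {δ : Fin r → ℕ} {𝔅 : Type} [Fintype 𝔅]
    [DecidableEq 𝔅] (n : 𝔅 → (Σ i, J i) → ℕ) {d : Fin r → ℕ}
    (hslots : ∀ x, ∑ B, n B x = if a x = 0 then 0 else d x.1)
    (hproper : ∀ i, d i ≠ 0 → ∃ j, a ⟨i, j⟩ ≠ 0) (hne : ∀ B, ∃ x, n B x ≠ 0)
    (hzero : ∀ B, ∑ x, (n B x : ZMod m) * a x = 0)
    (hmany : ∑ i, d i * (δ i + (Finset.univ.filter fun j => a ⟨i, j⟩ ≠ 0).card) <
      ∑ i, d i * Fintype.card (J i) + Fintype.card 𝔅) :
    Pattern a δ (fun w : (Σ B : 𝔅, Σ x : (Σ i, J i), Fin (n B x)) => w.2.1) (fun w => w.1) d := by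
  refine ⟨?_, hproper, ?_, ?_, hmany⟩
  · intro x
    rw [← hslots x, Finset.card_filter, Fintype.sum_sigma]
    apply Finset.sum_congr rfl
    intro B _
    rw [Fintype.sum_sigma, Finset.sum_eq_single x]
    · simp
    · intro y _ hy
      apply Finset.sum_eq_zero
      intro l _
      rw [if_neg hy]
    · simp
  · intro B
    obtain ⟨x, hx⟩ := hne B
    exact ⟨⟨B, x, ⟨0, Nat.pos_of_ne_zero hx⟩⟩, rfl⟩
  · intro B
    rw [← hzero B, Finset.sum_filter, Fintype.sum_sigma, Finset.sum_eq_single B]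
    · rw [Fintype.sum_sigma]
      apply Finset.sum_congr rfl
      intro x _
      simp
    · intro B' _ hB'
      apply Finset.sum_eq_zero
      intro l _
      rw [if_neg hB']
    · simp

/-- **The pattern given by one more block.** -/
theorem exists_pattern {q w : (Σ i, J i) → ℕ} (hqw : ∀ x, q x * w x = m) (hm : 0 < m)
    (hw : ∀ x, w x < m) {a : (Σ i, J i) → ZMod m} (ha : ∀ x, (q x : ZMod m) * a x = 0)
    {δ : Fin r → ℕ} (hδ : ∀ i, (∃ j, a ⟨i, j⟩ ≠ 0) → δ i * m ≤ ∑ j, w ⟨i, j⟩)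
    {T : (Σ i, J i) → ℕ}
    (hT0 : ∃ x, T x ≠ 0) (hTa : ∀ x, T x ≠ 0 → a x ≠ 0)
    (hTsum : ∑ x, (T x : ZMod m) * a x = 0)
    (hT : ∑ x, T x * w x < m ∨ (∑ x, T x * w x ≤ m ∧
      ∃ i j, a ⟨i, j⟩ ≠ 0 ∧ ((∃ j', a ⟨i, j'⟩ = 0) ∨ δ i * m < ∑ j, w ⟨i, j⟩))) :
    ∃ (Ω 𝔅 : Type) (_ : Fintype Ω) (_ : Fintype 𝔅) (_ : DecidableEq Ω) (_ : DecidableEq 𝔅)
      (s : Ω → Σ i, J i) (b : Ω → 𝔅) (d : Fin r → ℕ), Pattern a δ s b d := by
  classical
  have hwpos : ∀ x, 0 < w x := by
    intro x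
    rcases Nat.eq_zero_or_pos (w x) with h | h
    · have := hqw x
      rw [h, mul_zero] at this
      omega
    · exact h
  have hqpos : ∀ x, 0 < q x := by
    intro x
    rcases Nat.eq_zero_or_pos (q x) with h | h
    · have := hqw x
      rw [h, zero_mul] at this
      omega
    · exact h
  have hTle : ∑ x, T x * w x ≤ m := by
    rcases hT with h | h
    · exact h.le
    · exact h.1
  have hTm : ∀ x, T x ≤ m := by
    intro x
    have h1 : T x * w x ≤ ∑ x, T x * w x :=
      Finset.single_le_sum (f := fun x => T x * w x) (fun _ _ => Nat.zero_le _)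
        (Finset.mem_univ x)
    have h2 : T x * 1 ≤ T x * w x := Nat.mul_le_mul_left _ (hwpos x)
    omega
  let 𝔅 : Type := (Σ x : {x // a x ≠ 0}, Fin ((m - T x.1) * w x.1)) ⊕ Fin m
  let n : 𝔅 → (Σ i, J i) → ℕ := Sum.elim (fun B y => if y = B.1.1 then q y else 0) fun _ y => T y
  let d : Fin r → ℕ := fun i => if ∃ j, a ⟨i, j⟩ ≠ 0 then m * m else 0
  refine ⟨_, 𝔅, inferInstance, inferInstance, inferInstance, inferInstance, _, _, d,
    pattern_of_mult n ?_ ?_ ?_ ?_ ?_⟩
  · intro y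
    rw [Fintype.sum_sum_type]
    have h1 : ∑ B : (Σ x : {x // a x ≠ 0}, Fin ((m - T x.1) * w x.1)), n (Sum.inl B) y =
        if a y = 0 then 0 else m * (m - T y) := by
      rw [Fintype.sum_sigma]
      have h2 : ∀ x : {x // a x ≠ 0}, ∑ l : Fin ((m - T x.1) * w x.1),
          n (Sum.inl ⟨x, l⟩) y = if y = x.1 then ((m - T y) * w y) * q y else 0 := by
        intro x
        change ∑ l : Fin ((m - T x.1) * w x.1), (if y = x.1 then q y else 0) = _
        rw [Finset.sum_const, Finset.card_univ, Fintype.card_fin, smul_eq_mul]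
        split_ifs with h
        · rw [h]
        · rw [mul_zero]
      rw [Finset.sum_congr rfl fun x _ => h2 x]
      split_ifs with hy
      · apply Finset.sum_eq_zero
        rintro ⟨x, hx⟩ _
        rw [if_neg]
        rintro rfl
        exact hx hy
      · rw [Finset.sum_eq_single (⟨y, hy⟩ : {x // a x ≠ 0})]
        · rw [if_pos rfl, mul_assoc, mul_comm (w y), hqw, mul_comm]
        · rintro ⟨x, hx⟩ _ hne
          rw [if_neg]
          rintro rfl
          exact hne rfl
        · simp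
    have h3 : ∑ B : Fin m, n (Sum.inr B) y = m * T y := by
      change ∑ B : Fin m, T y = _
      rw [Finset.sum_const, Finset.card_univ, Fintype.card_fin, smul_eq_mul]
    rw [h1, h3]
    split_ifs with hy
    · have : T y = 0 := by
        by_contra h
        exact hTa y h hy
      rw [this, mul_zero, add_zero]
    · have h4 : d y.1 = m * m := if_pos ⟨y.2, hy⟩
      rw [h4, ← mul_add, Nat.sub_add_cancel (hTm y)]
  · intro i hi
    by_contra h
    exact hi (if_neg h)
  · rintro (⟨x, l⟩ | l)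
    · refine ⟨x.1, ?_⟩
      change (if x.1 = x.1 then q x.1 else 0) ≠ 0
      rw [if_pos rfl]
      exact (hqpos _).ne'
    · exact hT0
  · rintro (⟨x, l⟩ | l)
    · rw [Finset.sum_eq_single x.1]
      · change (((if x.1 = x.1 then q x.1 else 0 : ℕ)) : ZMod m) * a x.1 = 0
        rw [if_pos rfl]
        exact ha _
      · intro y _ hy
        change (((if y = x.1 then q y else 0 : ℕ)) : ZMod m) * a y = 0
        rw [if_neg hy]
        simp
      · simp
    · exact hTsum
  · -- the number of blocks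
    have hcardB : Fintype.card 𝔅 = ∑ x with a x ≠ 0, (m - T x) * w x + m := by
      rw [Fintype.card_sum, Fintype.card_sigma, Fintype.card_fin]
      congr 1
      simp only [Fintype.card_fin]
      exact (Finset.sum_subtype (Finset.univ.filter fun x : (Σ i, J i) => a x ≠ 0) (by simp)
        (fun x => (m - T x) * w x)).symm
    have hsumT : ∑ x with a x ≠ 0, (m - T x) * w x + ∑ x, T x * w x =
        ∑ x with a x ≠ 0, m * w x := by
      have h1 : ∑ x, T x * w x = ∑ x with a x ≠ 0, T x * w x := by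
        symm
        apply Finset.sum_subset (Finset.subset_univ _)
        intro x _ hx
        rw [Finset.mem_filter, not_and, not_not] at hx
        have : T x = 0 := by
          by_contra h
          exact hTa x h (hx (Finset.mem_univ x))
        rw [this, zero_mul]
      rw [h1, ← Finset.sum_add_distrib]
      apply Finset.sum_congr rfl
      intro x _
      rw [← add_mul, Nat.sub_add_cancel (hTm x)]
    -- one factor
    have key : ∀ i, d i * (δ i + (Finset.univ.filter fun j => a ⟨i, j⟩ ≠ 0).card) +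
        (if (∃ j, a ⟨i, j⟩ ≠ 0) ∧ ((∃ j', a ⟨i, j'⟩ = 0) ∨ δ i * m < ∑ j, w ⟨i, j⟩)
          then 1 else 0) ≤
        d i * Fintype.card (J i) + ∑ j with a ⟨i, j⟩ ≠ 0, m * w ⟨i, j⟩ := by
      intro i
      by_cases hi : ∃ j, a ⟨i, j⟩ ≠ 0
      swap
      · rw [if_neg (fun h => hi h.1)]
        have h4 : d i = 0 := if_neg hi
        simp [h4]
      have h4 : d i = m * m := if_pos hi
      have hc : (Finset.univ.filter fun j => a ⟨i, j⟩ = 0).card +
          (Finset.univ.filter fun j => a ⟨i, j⟩ ≠ 0).card = Fintype.card (J i) := by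
        rw [Finset.card_filter_add_card_filter_not]
        rfl
      have hw1 : ∑ j, w ⟨i, j⟩ = ∑ j with a ⟨i, j⟩ = 0, w ⟨i, j⟩ +
          ∑ j with a ⟨i, j⟩ ≠ 0, w ⟨i, j⟩ := by
        rw [Finset.sum_filter_add_sum_filter_not]
      have h5 : δ i * m + (if δ i * m < ∑ j, w ⟨i, j⟩ then 1 else 0) ≤ ∑ j, w ⟨i, j⟩ := by
        have := hδ i hi
        split_ifs with h
        · exact h
        · exact this
      have h6 : ∑ j with a ⟨i, j⟩ = 0, w ⟨i, j⟩ +
          (if ∃ j', a ⟨i, j'⟩ = 0 then 1 else 0) ≤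
          (Finset.univ.filter fun j => a ⟨i, j⟩ = 0).card * m := by
        by_cases hj' : ∃ j', a ⟨i, j'⟩ = 0
        · rw [if_pos hj', ← smul_eq_mul, ← Finset.sum_const]
          apply Nat.succ_le_of_lt
          apply Finset.sum_lt_sum
          · intro j _
            exact (hw _).le
          · obtain ⟨j', hj'⟩ := hj'
            exact ⟨j', by simp [hj'], hw _⟩
        · rw [if_neg hj', add_zero, ← smul_eq_mul, ← Finset.sum_const]
          apply Finset.sum_le_sum
          intro j _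
          exact (hw _).le
      have h7 : ∑ j with a ⟨i, j⟩ ≠ 0, m * w ⟨i, j⟩ = m * ∑ j with a ⟨i, j⟩ ≠ 0, w ⟨i, j⟩ := by
        rw [Finset.mul_sum]
      have h8 : (if (∃ j, a ⟨i, j⟩ ≠ 0) ∧ ((∃ j', a ⟨i, j'⟩ = 0) ∨ δ i * m < ∑ j, w ⟨i, j⟩)
          then 1 else 0) ≤ m * (if ∃ j', a ⟨i, j'⟩ = 0 then 1 else 0) +
          m * (if δ i * m < ∑ j, w ⟨i, j⟩ then 1 else 0) := by
        by_cases hj' : ∃ j', a ⟨i, j'⟩ = 0
        · rw [if_pos ⟨hi, Or.inl hj'⟩, if_pos hj', mul_one]
          omega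
        · by_cases hj2 : δ i * m < ∑ j, w ⟨i, j⟩
          · rw [if_pos ⟨hi, Or.inr hj2⟩, if_pos hj2, mul_one]
            omega
          · rw [if_neg (fun h => h.2.elim hj' hj2)]
            exact Nat.zero_le _
      rw [h4, h7, ← hc]
      set e' := (if δ i * m < ∑ j, w ⟨i, j⟩ then 1 else 0)
      rw [hw1] at h5
      set A := ∑ j with a ⟨i, j⟩ = 0, w ⟨i, j⟩
      set B := ∑ j with a ⟨i, j⟩ ≠ 0, w ⟨i, j⟩
      set u := (Finset.univ.filter fun j => a ⟨i, j⟩ = 0).card
      set v := (Finset.univ.filter fun j => a ⟨i, j⟩ ≠ 0).card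
      set e := (if ∃ j', a ⟨i, j'⟩ = 0 then 1 else 0)
      have h9 : m * (δ i * m + e') ≤ m * (A + B) := Nat.mul_le_mul_left _ h5
      have h10 : m * (A + e) ≤ m * (u * m) := Nat.mul_le_mul_left _ h6
      nlinarith [h8, h9, h10]
    have h1 := Finset.sum_le_sum fun i (_ : i ∈ Finset.univ) => key i
    rw [Finset.sum_add_distrib, Finset.sum_add_distrib] at h1
    have h2 : ∑ i, ∑ j with a ⟨i, j⟩ ≠ 0, m * w ⟨i, j⟩ = ∑ x with a x ≠ 0, m * w x := by
      rw [Finset.sum_filter, Fintype.sum_sigma]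
      apply Finset.sum_congr rfl
      intro i _
      rw [Finset.sum_filter]
    rw [h2, ← hsumT] at h1
    rw [hcardB]
    rcases hT with h3 | ⟨h3, i, j, hj, hj'⟩
    · omega
    · have h4 : 1 ≤ ∑ i, (if (∃ j, a ⟨i, j⟩ ≠ 0) ∧ ((∃ j', a ⟨i, j'⟩ = 0) ∨
          δ i * m < ∑ j, w ⟨i, j⟩) then 1 else 0) := by
        refine le_trans ?_ (Finset.single_le_sum (f := fun i =>
          (if (∃ j, a ⟨i, j⟩ ≠ 0) ∧ ((∃ j', a ⟨i, j'⟩ = 0) ∨
          δ i * m < ∑ j, w ⟨i, j⟩) then 1 else 0))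
          (fun _ _ => Nat.zero_le _) (Finset.mem_univ i))
        rw [if_pos ⟨⟨j, hj⟩, hj'⟩]
      omega

end Pool.Agent.WBP
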