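import Pool.Agent.GBB.Basic
import Pool.Agent.GBB.Slot1
import Pool.Agent.GBB.Slot2
import Pool.Agent.GBB.Pairs
import Pool.Agent.GBB.Descent
import Pool.Agent.WBP.CoeffH

/-!
# The main theorem for the powers of a quotient
-/

set_option autoImplicit false

noncomputable section

namespace Pool.Agent.WBP

open scoped LinearAlgebra.Projectivization
open Pool.Agent.ZCyc Pool.Agent.DCI57 Pool.Agent.GBB
open Pool.Agent.VCI (op2 ratEquiv2)

variable {d m N : ℕ}

/-- the vertices of the product of differences -/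
private def vtx {k : ℕ} (x y : Pts k N) (S : Finset (Fin k)) : Pts k N :=
  fun i => if i ∈ S then y i else x i

private lemma onX_vtx {k : ℕ} {X : Set (ℙ ℂ (Fin N → ℂ))} {x y : Pts k N} (hx : OnX X x)
    (hy : OnX X y) (S : Finset (Fin k)) : OnX X (vtx x y S) := by
  intro i
  unfold vtx
  by_cases h : i ∈ S
  · simp only [h, if_true]
    exact hy i
  · simp only [h, if_false]
    exact hx i

/-- the image of a zero-cycle, with complex coefficients -/
private lemma push_mapRange {k : ℕ} (γ : Sym d k N →₀ ℚ) (x y : Pts k N) :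
    (push γ (cyc Finset.univ x y)).mapRange (fun c : ℚ => (c : ℂ)) (by simp) =
      ∑ g ∈ γ.support, (γ g : ℂ) • ∑ S : Finset (Fin k),
        ((-1 : ℂ) ^ S.card) • Finsupp.single (g.act (vtx x y S)) (1 : ℂ) := by
  classical
  have key : ∀ z : Pts k N →₀ ℚ, z.mapRange (fun c : ℚ => (c : ℂ)) (by simp) =
      Finsupp.mapRange.addMonoidHom ((algebraMap ℚ ℂ).toAddMonoidHom) z := by
    intro z
    rfl
  rw [key]
  unfold push cyc
  rw [Finsupp.sum, map_sum]
  apply Finset.sum_congr rfl
  intro g _
  rw [Finsupp.mapDomain_finsetSum, Finset.smul_sum, map_sum, Finset.smul_sum,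
    Finset.powerset_univ]
  apply Finset.sum_congr rfl
  intro S _
  rw [Finsupp.mapDomain_single, Finsupp.smul_single, Finsupp.smul_single,
    Finsupp.smul_single, Finsupp.mapRange.addMonoidHom_apply, Finsupp.mapRange_single]
  congr 1
  simp

/-- The hypothesis on the characters of the quotient: the part of a character of a power of the
quotient is zero, if there is no conjugate of the character for which every component has a form. -/
structure CharHyp (d : ℕ) [NeZero d] {N : ℕ} (r : ℕ) (w : Fin N → ℕ) (X : Set (ℙ ℂ (Fin N → ℂ))) :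
    Prop where
  /-- any number of factors -/
  all : ∀ {k : ℕ} (a : Fin k → Fin N → ZMod d), (∀ i, ∀ h : Fin N → ZMod d,
    (∀ j, (w j : ZMod d) * h j = 0) → ∑ j, a i j * h j = 0) → (∀ i, a i ≠ 0) →
    (∀ i, ∑ j, a i j = 0) → (∀ u : Pts k N, OnX X u → E X a u = 0) ∨
      ∃ (t : (ZMod d)ˣ) (b : Fin k → Fin N → ℕ), ∀ i, Typ r (a i) t (b i) ∧ ∀ j, w j ∣ b i j

/-- the part of an invariant character is zero -/
private lemma part_zero [NeZero d] {k n r : ℕ} {w' : Fin N → ℕ}
    {c : Fin r → Fin N → ℂ} (hch : CharHyp d r w' (Diag d c))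
    (hsw : HasSwap (d := d) n r c) (hk : 0 < k) (γ : Sym d k N →₀ ℚ)
    (hγ : KillsFormsH n r w' γ) (x y : Pts k N) (hx : OnX (Diag d c) x)
    (hy : OnX (Diag d c) y) (z : Sym d k N → Fin k → Fin N → ZMod d)
    (hz : ∀ g i j, ((g.2 i j : ℂˣ) : ℂ) = psi (z g i j)) (a : Fin k → Fin N → ZMod d)
    (haH : ∀ i, ∀ h : Fin N → ZMod d, (∀ j, (w' j : ZMod d) * h j = 0) → ∑ j, a i j * h j = 0) :
    ∑ g ∈ γ.support, (γ g : ℂ) • ∑ S : Finset (Fin k), ((-1 : ℂ) ^ S.card) •
      psi (-∑ i, ∑ j, a i j * z g i j) • E (Diag d c) a (vtx x y S ∘ g.1) = 0 := by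
  classical
  -- the permuted vertices
  let w : Sym d k N → Finset (Fin k) → Pts k N := fun g S => vtx x y S ∘ g.1
  have hw : ∀ g S, OnX (Diag d c) (w g S) := fun g S i => onX_vtx hx hy S (g.1 i)
  change ∑ g ∈ γ.support, (γ g : ℂ) • ∑ S : Finset (Fin k), ((-1 : ℂ) ^ S.card) •
      psi (-∑ i, ∑ j, a i j * z g i j) • E (Diag d c) a (w g S) = 0
  -- case (i): a component of the character is trivial
  by_cases c1 : ∃ i₀, a i₀ = 0
  · obtain ⟨i₀, hi₀⟩ := c1
    apply Finset.sum_eq_zero
    intro g _
    have : ∑ S : Finset (Fin k), ((-1 : ℂ) ^ S.card) •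
        psi (-∑ i, ∑ j, a i j * z g i j) • E (Diag d c) a (w g S) = 0 := by
      set i' := g.1 i₀ with hi'
      apply Finset.sum_involution (fun S _ => symmDiff S {i'})
      · intro S _
        have h1 : E (Diag d c) a (w g (symmDiff S {i'})) = E (Diag d c) a (w g S) := by
          have h2 : w g (symmDiff S {i'}) =
              Function.update (w g S) i₀ (w g (symmDiff S {i'}) i₀) := by
            funext i
            by_cases hi : i = i₀
            · subst hi
              rw [Function.update_self]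
            · rw [Function.update_of_ne hi]
              have h3 : g.1 i ≠ i' := by
                intro h
                exact hi (g.1.injective h)
              simp only [w, vtx, Function.comp_apply]
              have h4 : (g.1 i ∈ symmDiff S {i'}) ↔ g.1 i ∈ S := by
                rw [Finset.mem_symmDiff]
                simp [h3]
              simp only [h4]
          rw [h2]
          exact E_const c a (w g S) (hw g S) i₀ hi₀ (hw g (symmDiff S {i'}) i₀)
        rw [h1, ← add_smul]
        have h7 : ((-1 : ℂ) ^ S.card) + (-1 : ℂ) ^ (symmDiff S {i'}).card = 0 := by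
          by_cases hS : i' ∈ S
          · have : symmDiff S {i'} = S.erase i' := by
              ext l
              rw [Finset.mem_symmDiff, Finset.mem_erase, Finset.mem_singleton]
              constructor
              · rintro (⟨h, h'⟩ | ⟨h, h'⟩)
                · exact ⟨h', h⟩
                · subst h
                  exact absurd hS h'
              · rintro ⟨h, h'⟩
                exact Or.inl ⟨h', h⟩
            rw [this]
            have h8 := Finset.card_erase_add_one hS
            rw [← h8, pow_succ]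
            ring
          · have : symmDiff S {i'} = insert i' S := by
              ext l
              rw [Finset.mem_symmDiff, Finset.mem_insert, Finset.mem_singleton]
              constructor
              · rintro (⟨h, h'⟩ | ⟨h, h'⟩)
                · exact Or.inr h
                · exact Or.inl h
              · rintro (h | h)
                · subst h
                  exact Or.inr ⟨rfl, hS⟩
                · refine Or.inl ⟨h, ?_⟩
                  rintro rfl
                  exact hS h
            rw [this, Finset.card_insert_of_notMem hS, pow_succ]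
            ring
        rw [h7, zero_smul]
      · intro S _ _ h
        have : i' ∈ symmDiff S {i'} ↔ i' ∈ S := by rw [h]
        rw [Finset.mem_symmDiff] at this
        by_cases hS : i' ∈ S <;> simp [hS] at this
      · intro S _
        exact symmDiff_symmDiff_cancel_right _ _
      · intro S _
        exact Finset.mem_univ _
    rw [this, smul_zero]
  push Not at c1
  -- all the E vanish
  by_cases c2 : ∀ u : Pts k N, OnX (Diag d c) u → E (Diag d c) a u = 0
  · apply Finset.sum_eq_zero
    intro g _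
    have : ∑ S : Finset (Fin k), ((-1 : ℂ) ^ S.card) •
        psi (-∑ i, ∑ j, a i j * z g i j) • E (Diag d c) a (w g S) = 0 := by
      apply Finset.sum_eq_zero
      intro S _
      rw [c2 _ (hw g S), smul_zero, smul_zero]
    rw [this, smul_zero]
  have hsum : ∀ i, ∑ j, a i j = 0 := by
    intro i
    by_contra h
    exact c2 fun u _ => E_zero_of_sum (Diag d c) a u i h
  obtain ⟨t₀, b, hTb'⟩ := (hch.all a haH c1 hsum).resolve_left c2
  let t : Fin k → (ZMod d)ˣ := fun _ => t₀
  have hTb : ∀ i, Typ r (a i) (t i) (b i) := fun i => (hTb' i).1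
  have htt : ∀ i i', t i = t i' := fun _ _ => rfl
  have hb0 : ∀ i j, 0 < b i j := fun i => (hTb i).1
  have hbs : ∀ i, ∑ j, b i j = r * d := fun i => (hTb i).2.1
  have hab : ∀ i j, a i j = (t i : ZMod d) * (b i j : ZMod d) := fun i => (hTb i).2.2.1
  -- exchange the sums
  have hswap : ∑ g ∈ γ.support, (γ g : ℂ) • ∑ S : Finset (Fin k),
      ((-1 : ℂ) ^ S.card) • psi (-∑ i, ∑ j, a i j * z g i j) • E (Diag d c) a (w g S) =
      ∑ S : Finset (Fin k), ((-1 : ℂ) ^ S.card) • ∑ g ∈ γ.support,
        ((γ g : ℂ) * psi (-∑ i, ∑ j, a i j * z g i j)) • E (Diag d c) a (w g S) := by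
    simp only [Finset.smul_sum]
    rw [Finset.sum_comm]
    apply Finset.sum_congr rfl
    intro S _
    apply Finset.sum_congr rfl
    intro g _
    simp only [smul_smul]
    congr 1
    ring
  rw [hswap]
  apply Finset.sum_eq_zero
  intro S _
  have key : ∑ g ∈ γ.support,
        ((γ g : ℂ) * psi (-∑ i, ∑ j, a i j * z g i j)) • E (Diag d c) a (w g S) = 0 := by
    let f : Sym d k N → (Fin k → Fin N → ℕ) := fun g i j => b (g.1.symm i) j
    rw [← Finset.sum_fiberwise_of_maps_to (s := γ.support) (t := γ.support.image f)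
      (g := f) (fun g hg => Finset.mem_image_of_mem f hg)]
    apply Finset.sum_eq_zero
    intro e he
    obtain ⟨g₀, hg₀, hge⟩ := Finset.mem_image.1 he
    -- the sign
    have hsign : ∀ g : Sym d k N, f g = e → E (Diag d c) a (w g S) =
        ((((Equiv.Perm.sign g.1 : ℤˣ) : ℤ) : ℂ) ^ n *
          (((Equiv.Perm.sign g₀.1 : ℤˣ) : ℤ) : ℂ) ^ n) • E (Diag d c) a (w g₀ S) := by
      intro g hg
      let τ : Equiv.Perm (Fin k) := g₀.1⁻¹ * g.1
      have hτ1 : ∀ i, τ i = g₀.1.symm (g.1 i) := fun i => rfl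
      have hτa : ∀ i, a (τ i) = a i := by
        intro i
        funext j
        rw [hab, hab, htt (τ i) i]
        congr 2
        have h2 := congrFun (congrFun (hg.trans hge.symm) (g.1 i)) j
        simp only [f, Equiv.symm_apply_apply] at h2
        rw [hτ1]
        exact h2.symm
      have h3 := E_perm hsw a (fun i => ⟨t i, b i, hTb i⟩) τ hτa (w g₀ S) (hw g₀ S)
      have h4 : w g₀ S ∘ τ = w g S := by
        funext i
        simp only [w, Function.comp_apply, hτ1, Equiv.apply_symm_apply]
      rw [h4] at h3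
      rw [h3]
      congr 1
      have h5 : Equiv.Perm.sign τ = Equiv.Perm.sign g₀.1 * Equiv.Perm.sign g.1 := by
        rw [Equiv.Perm.sign_mul, Equiv.Perm.sign_inv]
      rw [h5]
      push_cast
      ring
    have h6 : ∑ g ∈ γ.support with f g = e,
        ((γ g : ℂ) * psi (-∑ i, ∑ j, a i j * z g i j)) • E (Diag d c) a (w g S) =
        (∑ g ∈ γ.support with f g = e,
          (((γ g * ((Equiv.Perm.sign g.1 : ℤˣ) : ℤ) ^ n : ℚ)) : ℂ) *
          psi (((-t ⟨0, hk⟩ : (ZMod d)ˣ) : ZMod d) *
            ∑ i, ∑ j, (b i j : ZMod d) * z g i j)) •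
          ((((Equiv.Perm.sign g₀.1 : ℤˣ) : ℤ) : ℂ) ^ n • E (Diag d c) a (w g₀ S)) := by
      rw [Finset.sum_smul]
      apply Finset.sum_congr rfl
      intro g hg
      rw [hsign g (Finset.mem_filter.1 hg).2, smul_smul, smul_smul]
      congr 1
      have h7 : -∑ i, ∑ j, a i j * z g i j =
          ((-t ⟨0, hk⟩ : (ZMod d)ˣ) : ZMod d) * ∑ i, ∑ j, (b i j : ZMod d) * z g i j := by
        rw [Units.val_neg, neg_mul, Finset.mul_sum]
        congr 1
        apply Finset.sum_congr rfl
        intro i _
        rw [Finset.mul_sum]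
        apply Finset.sum_congr rfl
        intro j _
        rw [hab, htt i ⟨0, hk⟩]
        ring
      rw [h7]
      push_cast
      ring
    rw [h6]
    have h8 := coeff_formsH γ hγ z hz b e hb0 hbs (fun i => (hTb' i).2) hk
    have h9 : ∀ g : Sym d k N, (f g = e) ↔ (∀ i j, b (g.1.symm i) j = e i j) := by
      intro g
      constructor
      · intro h i j
        exact congrFun (congrFun h i) j
      · intro h
        funext i j
        exact h i j
    simp only [h9]
    have h10 := psi_conj (γ.support.filter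
      (fun g => ∀ i j, b (g.1.symm i) j = e i j))
      (fun g => γ g * ((Equiv.Perm.sign g.1 : ℤˣ) : ℤ) ^ n)
      (fun g => ∑ i, ∑ j, (b i j : ZMod d) * z g i j) (-t ⟨0, hk⟩) h8
    rw [h10, zero_smul]
  rw [key, smul_zero]

/-- the invariant twists -/
private def grp (d : ℕ) [NeZero d] {N : ℕ} (w : Fin N → ℕ) (k : ℕ) :
    Finset (Fin k → Fin N → ZMod d) := by
  classical
  exact Finset.univ.filter fun h => ∀ i j, (w j : ZMod d) * h i j = 0

private lemma mem_grp [NeZero d] {w : Fin N → ℕ} {k : ℕ} {h : Fin k → Fin N → ZMod d} :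
    h ∈ grp d w k ↔ ∀ i j, (w j : ZMod d) * h i j = 0 := by
  classical
  simp [grp]

/-- the sum of a character over the group -/
private lemma sum_grp [NeZero d] {w : Fin N → ℕ} {k : ℕ} (a : Fin k → Fin N → ZMod d)
    (ha : ¬ ∀ i, ∀ h : Fin N → ZMod d, (∀ j, (w j : ZMod d) * h j = 0) → ∑ j, a i j * h j = 0) :
    ∑ h ∈ grp d w k, psi (-∑ i, ∑ j, a i j * h i j) = 0 := by
  classical
  push Not at ha
  obtain ⟨i₀, h₀, hh, hne⟩ := ha
  set h₁ : Fin k → Fin N → ZMod d := Pi.single i₀ h₀ with hh₁
  have hsum : ∑ i, ∑ j, a i j * h₁ i j = ∑ j, a i₀ j * h₀ j := by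
    rw [Finset.sum_eq_single i₀]
    · rw [hh₁, Pi.single_eq_same]
    · intro i _ hi
      rw [hh₁, Pi.single_eq_of_ne hi]
      simp
    · simp
  have hmem : h₁ ∈ grp d w k := by
    rw [mem_grp]
    intro i j
    by_cases hi : i = i₀
    · subst hi
      rw [hh₁, Pi.single_eq_same]
      exact hh j
    · rw [hh₁, Pi.single_eq_of_ne hi]
      simp
  have h2 : ∑ h ∈ grp d w k, psi (-∑ i, ∑ j, a i j * h i j) =
      psi (-∑ i, ∑ j, a i j * h₁ i j) * ∑ h ∈ grp d w k, psi (-∑ i, ∑ j, a i j * h i j) := by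
    rw [Finset.mul_sum]
    refine Finset.sum_bij' (fun h _ => h - h₁) (fun h _ => h + h₁) ?_ ?_ ?_ ?_ ?_
    · intro h hh'
      rw [mem_grp] at *
      intro i j
      rw [Pi.sub_apply, Pi.sub_apply, mul_sub, hh' i j, hmem i j, sub_zero]
    · intro h hh'
      rw [mem_grp] at *
      intro i j
      rw [Pi.add_apply, Pi.add_apply, mul_add, hh' i j, hmem i j, add_zero]
    · intro h _
      exact sub_add_cancel _ _
    · intro h _
      exact add_sub_cancel_right _ _
    · intro h _
      rw [← psi_add]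
      congr 1
      rw [← neg_add, ← Finset.sum_add_distrib]
      congr 1
      apply Finset.sum_congr rfl
      intro i _
      rw [← Finset.sum_add_distrib]
      apply Finset.sum_congr rfl
      intro j _
      rw [Pi.sub_apply, Pi.sub_apply]
      ring
  have h3 : psi (-∑ i, ∑ j, a i j * h₁ i j) ≠ 1 := by
    intro h4
    have h5 := psi_eq_one h4
    rw [neg_eq_zero, hsum] at h5
    exact hne h5
  have h4 : (psi (-∑ i, ∑ j, a i j * h₁ i j) - 1) *
      ∑ h ∈ grp d w k, psi (-∑ i, ∑ j, a i j * h i j) = 0 := by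
    rw [sub_mul, one_mul, ← h2, sub_self]
  exact (mul_eq_zero.1 h4).resolve_left (sub_ne_zero.2 h3)

/-- the sum over the group of the images of the cycle is rationally equivalent to zero -/
private lemma average [NeZero d] {k n r : ℕ} {w' : Fin N → ℕ} {c : Fin r → Fin N → ℂ}
    (hch : CharHyp d r w' (Diag d c)) (hsw : HasSwap (d := d) n r c) (hk : 0 < k)
    (γ : Sym d k N →₀ ℚ) (hγ : KillsFormsH n r w' γ) (x y : Pts k N) (hx : OnX (Diag d c) x)
    (hy : OnX (Diag d c) y) :
    ∑ h ∈ grp d w' k, ∑ g ∈ γ.support, (γ g : ℂ) • ∑ S : Finset (Fin k),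
      ((-1 : ℂ) ^ S.card) • cl (Diag d c) (actM h (g.act (vtx x y S))) = 0 := by
  classical
  have hd0 : 0 < d := NeZero.pos d
  have hz : ∀ g : Sym d k N, ∀ i j, ∃ a : ZMod d, ((g.2 i j : ℂˣ) : ℂ) = psi a := by
    intro g i j
    apply exists_psi
    have := (g.2 i j).2
    rw [mem_rootsOfUnity] at this
    have h2 := congrArg (Units.val) this
    simpa using h2
  choose z hz using hz
  have hact : ∀ g S, g.act (vtx x y S) = actM (z g) (vtx x y S ∘ g.1) := by
    intro g S
    funext i
    exact act_eq_mk (g.2 i) (z g i) (hz g i) (vtx x y S (g.1 i))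
  have hdc : ((d : ℂ) ^ (k * N)) ≠ 0 := pow_ne_zero _ (by exact_mod_cast hd0.ne')
  have hexp : ((d : ℂ) ^ (k * N)) • (∑ h ∈ grp d w' k, ∑ g ∈ γ.support, (γ g : ℂ) •
      ∑ S : Finset (Fin k), ((-1 : ℂ) ^ S.card) •
        cl (Diag d c) (actM h (g.act (vtx x y S)))) =
      ∑ a : Fin k → Fin N → ZMod d, (∑ h ∈ grp d w' k, psi (-∑ i, ∑ j, a i j * h i j)) •
        ∑ g ∈ γ.support, (γ g : ℂ) • ∑ S : Finset (Fin k),
        ((-1 : ℂ) ^ S.card) • psi (-∑ i, ∑ j, a i j * z g i j) •
          E (Diag d c) a (vtx x y S ∘ g.1) := by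
    simp only [Finset.sum_smul, Finset.smul_sum]
    conv_lhs => rw [Finset.sum_comm]
    conv_rhs => rw [Finset.sum_comm]
    apply Finset.sum_congr rfl
    intro g _
    conv_lhs => rw [Finset.sum_comm]
    conv_rhs => rw [Finset.sum_comm]
    apply Finset.sum_congr rfl
    intro S _
    conv_rhs => rw [Finset.sum_comm]
    apply Finset.sum_congr rfl
    intro h _
    rw [smul_comm ((d : ℂ) ^ (k * N)), smul_comm ((d : ℂ) ^ (k * N)), ← sum_E, Finset.smul_sum,
      Finset.smul_sum]
    apply Finset.sum_congr rfl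
    intro a _
    rw [hact, E_act, E_act, smul_comm (psi (-∑ i, ∑ j, a i j * h i j)) (γ g : ℂ),
      smul_comm (psi (-∑ i, ∑ j, a i j * h i j)) ((-1 : ℂ) ^ S.card)]
  refine (smul_eq_zero.1 (hexp.trans ?_)).resolve_left hdc
  apply Finset.sum_eq_zero
  intro a _
  by_cases ha : ∀ i, ∀ h : Fin N → ZMod d, (∀ j, (w' j : ZMod d) * h j = 0) →
      ∑ j, a i j * h j = 0
  · rw [part_zero hch hsw hk γ hγ x y hx hy z hz a ha, smul_zero]
  · rw [sum_grp a ha, zero_smul]

/-- class of the sum of the images -/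
private lemma class_average [NeZero d] {k : ℕ} {w' : Fin N → ℕ} (X : Set (ℙ ℂ (Fin N → ℂ)))
    (γ : Sym d k N →₀ ℚ) (x y : Pts k N) :
    (Submodule.Quotient.mk ((∑ h ∈ grp d w' k,
      (push γ (cyc Finset.univ x y)).mapDomain (actM h)).mapRange (fun c : ℚ => (c : ℂ))
      (by simp)) : V X k) = ∑ h ∈ grp d w' k, ∑ g ∈ γ.support, (γ g : ℂ) •
        ∑ S : Finset (Fin k), ((-1 : ℂ) ^ S.card) • cl X (actM h (g.act (vtx x y S))) := by
  classical
  have key : ∀ z : Pts k N →₀ ℚ, z.mapRange (fun c : ℚ => (c : ℂ)) (by simp) =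
      Finsupp.mapRange.addMonoidHom ((algebraMap ℚ ℂ).toAddMonoidHom) z := by
    intro z
    rfl
  rw [key, map_sum, ← Submodule.mkQ_apply, map_sum]
  apply Finset.sum_congr rfl
  intro h _
  have h1 : Finsupp.mapRange.addMonoidHom ((algebraMap ℚ ℂ).toAddMonoidHom)
      ((push γ (cyc Finset.univ x y)).mapDomain (actM h)) =
      Finsupp.lmapDomain ℂ ℂ (actM h) ((push γ (cyc Finset.univ x y)).mapRange
        (fun c : ℚ => (c : ℂ)) (by simp)) := by
    rw [Finsupp.lmapDomain_apply]
    exact (Finsupp.mapDomain_mapRange _ _ _ _ (fun a b => map_add _ a b)).symm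
  rw [h1, push_mapRange, map_sum, map_sum]
  apply Finset.sum_congr rfl
  intro g _
  rw [map_smul, map_smul, map_sum, map_sum]
  congr 1
  apply Finset.sum_congr rfl
  intro S _
  rw [map_smul, map_smul, Finsupp.lmapDomain_apply, Finsupp.mapDomain_single]
  rfl

/-- twists by the group and roots of unity -/
private lemma actM_eq_twist [NeZero d] {k : ℕ} {w' : Fin N → ℕ} {h : Fin k → Fin N → ZMod d}
    (hh : h ∈ grp d w' k) : ∃ ζ : Fin k → Fin N → rootsOfUnity d ℂ, (∀ i j, ζ i j ^ w' j = 1) ∧
      ∀ p : Pts k N, actM h p = twist ζ p := by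
  rw [mem_grp] at hh
  have h1 : ∀ i j, zeta d ^ (h i j).val ∈ rootsOfUnity d ℂ := by
    intro i j
    rw [mem_rootsOfUnity, ← pow_mul, mul_comm, pow_mul, zeta_pow, one_pow]
  refine ⟨fun i j => ⟨zeta d ^ (h i j).val, h1 i j⟩, ?_, ?_⟩
  · intro i j
    apply Subtype.ext
    have h2 : ((w' j * (h i j).val : ℕ) : ZMod d) = 0 := by
      push_cast
      rw [ZMod.natCast_zmod_val]
      exact hh i j
    rw [ZMod.natCast_eq_zero_iff] at h2
    obtain ⟨e, he⟩ := h2
    change (zeta d ^ (h i j).val) ^ w' j = 1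
    rw [← pow_mul, mul_comm, he, pow_mul, zeta_pow, one_pow]
  · intro p
    funext i
    rfl

/-- **The main theorem for the quotient.** -/
theorem mainH [NeZero d] {k n r : ℕ} {w' : Fin N → ℕ} {c : Fin r → Fin N → ℂ}
    (hch : CharHyp d r w' (Diag d c)) (hsw : HasSwap (d := d) n r c) (hk : 0 < k)
    (γ : Sym d k N →₀ ℚ) (hγ : KillsFormsH n r w' γ) (x y : Pts k N) (hx : OnX (Diag d c) x)
    (hy : OnX (Diag d c) y) :
    push γ (cyc Finset.univ x y) ∈ ratEqH d w' (Diag d c) k := by
  classical
  set Z := push γ (cyc Finset.univ x y) with hZ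
  have h1 : ∑ h ∈ grp d w' k, Z.mapDomain (actM h) ∈ ratEq ℚ (Diag d c) k := by
    apply ratEq_descent
    rw [← Submodule.Quotient.mk_eq_zero, hZ, class_average]
    exact average hch hsw hk γ hγ x y hx hy
  have hsupp : ∀ p ∈ Z.support, OnX (Diag d c) p := by
    have h2 : Z ∈ Finsupp.supported ℚ ℚ {p : Pts k N | OnX (Diag d c) p} := by
      rw [hZ]
      unfold push
      apply Submodule.sum_mem
      intro g _
      apply Submodule.smul_mem
      unfold cyc
      rw [Finsupp.mapDomain_finsetSum]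
      apply Submodule.sum_mem
      intro S _
      rw [Finsupp.mapDomain_single]
      apply Finsupp.single_mem_supported
      intro b
      exact stab_diag c (g.2 b) _ (onX_vtx hx hy S (g.1 b))
    intro p hp
    exact (Finsupp.mem_supported ℚ _).1 h2 hp
  have h2 : ∑ h ∈ grp d w' k, Z.mapDomain (actM h) - ((grp d w' k).card : ℚ) • Z ∈
      coinv d w' (Diag d c) k := by
    rw [Nat.cast_smul_eq_nsmul, ← Finset.sum_const, ← Finset.sum_sub_distrib]
    apply Submodule.sum_mem
    intro h hh
    obtain ⟨ζ, hζ, hact⟩ := actM_eq_twist hh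
    have h3 : Z.mapDomain (actM h) - Z = ∑ p ∈ Z.support, Z p •
        (Finsupp.single (twist ζ p) (1 : ℚ) - Finsupp.single p 1) := by
      simp only [smul_sub, Finset.sum_sub_distrib, Finsupp.smul_single, smul_eq_mul, mul_one]
      congr 1
      · rw [Finsupp.mapDomain, Finsupp.sum]
        apply Finset.sum_congr rfl
        intro p _
        rw [hact]
      · exact (Finsupp.sum_single Z).symm
    rw [h3]
    apply Submodule.sum_mem
    intro p hp
    apply Submodule.smul_mem
    exact Submodule.subset_span ⟨ζ, p, hζ, hsupp p hp, rfl⟩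
  have hcard : ((grp d w' k).card : ℚ) ≠ 0 := by
    rw [Nat.cast_ne_zero, Finset.card_ne_zero]
    refine ⟨0, mem_grp.2 fun i j => ?_⟩
    rw [Pi.zero_apply, Pi.zero_apply, mul_zero]
  have h3 : ((grp d w' k).card : ℚ) • Z ∈ ratEqH d w' (Diag d c) k := by
    have h4 : ((grp d w' k).card : ℚ) • Z = ∑ h ∈ grp d w' k, Z.mapDomain (actM h) -
        (∑ h ∈ grp d w' k, Z.mapDomain (actM h) - ((grp d w' k).card : ℚ) • Z) := by
      rw [sub_sub_cancel]
    rw [h4]
    exact Submodule.sub_mem _ (Submodule.mem_sup_left h1) (Submodule.mem_sup_right h2)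
  exact (Submodule.smul_mem_iff _ hcard).1 h3

end Pool.Agent.WBP
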